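import Pool.Agent.CSP4.Lev1Z

/-!
# A normal subgroup containing `C i ⁅x j, x k⁆` (or `C i (x j) ^ 2`) contains `⁅J1, J1⁆`
-/

set_option autoImplicit false

namespace Pool.Agent.CSP4

open Pool.Agent.CSP3 Pool.Agent.CSP3.Lev1Aux

open scoped commutatorElement

variable {n : ℕ}

theorem exists_perm3 {i j k i' j' k' : Fin n} (hij : i ≠ j) (hik : i ≠ k) (hjk : j ≠ k)
    (hij' : i' ≠ j') (hik' : i' ≠ k') (hjk' : j' ≠ k') :
    ∃ σ : Equiv.Perm (Fin n), σ i = i' ∧ σ j = j' ∧ σ k = k' := by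
  obtain ⟨σ1, h1⟩ : ∃ σ : Equiv.Perm (Fin n), σ i = i' :=
    ⟨Equiv.swap i i', Equiv.swap_apply_left i i'⟩
  obtain ⟨σ2, h2i, h2j⟩ : ∃ σ : Equiv.Perm (Fin n), σ i = i' ∧ σ j = j' := by
    refine ⟨Equiv.swap (σ1 j) j' * σ1, ?_, ?_⟩
    · rw [Equiv.Perm.mul_apply, h1]
      refine Equiv.swap_apply_of_ne_of_ne ?_ hij'
      rw [← h1]
      exact fun h => hij (σ1.injective h)
    · rw [Equiv.Perm.mul_apply, Equiv.swap_apply_left]
  refine ⟨Equiv.swap (σ2 k) k' * σ2, ?_, ?_, ?_⟩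
  · rw [Equiv.Perm.mul_apply, h2i]
    refine Equiv.swap_apply_of_ne_of_ne ?_ hik'
    rw [← h2i]
    exact fun h => hik (σ2.injective h)
  · rw [Equiv.Perm.mul_apply, h2j]
    refine Equiv.swap_apply_of_ne_of_ne ?_ hjk'
    rw [← h2j]
    exact fun h => hjk (σ2.injective h)
  · rw [Equiv.Perm.mul_apply, Equiv.swap_apply_left]

theorem C_comm_mem (N : Subgroup (A n)) [hN : N.Normal] {i j k : Fin n} (hij : i ≠ j)
    (hik : i ≠ k) (hjk : j ≠ k) (h : C i ⁅x j, x k⁆ ∈ N) (a : Fin n) (w : F n)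
    (hw : w ∈ gam n 1) : C a w ∈ N := by
  have hall : ∀ b c : Fin n, C a ⁅x b, x c⁆ ∈ N := by
    intro b c
    by_cases hb : b = a
    · subst hb
      rw [← C_kill, map_commutatorElement (kill b), kill_self, commutatorElement_one_left, map_one]
      exact N.one_mem
    by_cases hc : c = a
    · subst hc
      rw [← C_kill, map_commutatorElement (kill c), kill_self, commutatorElement_one_right,
        map_one]
      exact N.one_mem
    by_cases hbc : b = c
    · subst hbc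
      rw [commutatorElement_self, map_one]
      exact N.one_mem
    obtain ⟨σ, h1, h2, h3⟩ := exists_perm3 hij hik hjk (Ne.symm hb) (Ne.symm hc) hbc
    have h4 := hN.conj_mem _ h (pm σ)
    rw [pm_conj_C, map_commutatorElement (pm σ), pm_x, pm_x, h1, h2, h3] at h4
    exact h4
  haveI hK : (N.comap (C a)).Normal := hN.comap (C a)
  exact gam1_le (N.comap (C a)) hall hw

/-- **A normal subgroup of `Aut F_n`, `n ≥ 3`, containing `x_i ↦ ⁅x_j, x_k⁆⁻¹ x_i ⁅x_j, x_k⁆`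
contains `⁅J1, J1⁆`.** -/
theorem comm_J1_le (hn : 3 ≤ n) (N : Subgroup (A n)) [hN : N.Normal] {i j k : Fin n}
    (hij : i ≠ j) (hik : i ≠ k) (hjk : j ≠ k) (h : C i ⁅x j, x k⁆ ∈ N) :
    ⁅J1 n, J1 n⁆ ≤ N := by
  rw [Subgroup.commutator_le]
  intro a ha b hb
  have hC : ∀ i : Fin n, ∀ w ∈ gam n 1, QuotientGroup.mk' N (C i w) = 1 := fun a w hw =>
    (QuotientGroup.eq_one_iff (N := N) _).mpr (C_comm_mem N hij hik hjk h a w hw)
  have hc := lev1Z (QuotientGroup.mk' N) hn hC ha hb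
  have h2 : QuotientGroup.mk' N ⁅a, b⁆ = 1 := by
    rw [map_commutatorElement]
    exact commutatorElement_eq_one_iff_commute.mpr hc
  exact (QuotientGroup.eq_one_iff (N := N) _).mp h2

/-- if `C i (x j)` and `C i (x k)` commute modulo `N` then `C i ⁅x j, x k⁆ ∈ N` -/
theorem C_comm_mem_iff (N : Subgroup (A n)) (i j k : Fin n) :
    C i ⁅x j, x k⁆ ∈ N ↔ ⁅C i (x j), C i (x k)⁆ ∈ N := by
  rw [map_commutatorElement]

/-- the square of a partial conjugation in `N` -/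
theorem C_comm_mem_of_sq (N : Subgroup (A n)) [hN : N.Normal] {i j k : Fin n} (hij : i ≠ j)
    (hik : i ≠ k) (hjk : j ≠ k) (h : C i (x j) ^ 2 ∈ N) : C i ⁅x j, x k⁆ ∈ N := by
  have h1 : C i (x k) ^ 2 ∈ N := by
    obtain ⟨σ, e1, e2⟩ : ∃ σ : Equiv.Perm (Fin n), σ i = i ∧ σ j = k :=
      ⟨Equiv.swap j k, Equiv.swap_apply_of_ne_of_ne hij hik, Equiv.swap_apply_left j k⟩
    have h3 := hN.conj_mem _ h (pm σ)
    rw [← conj_pow, pm_conj_C, pm_x, e1, e2] at h3
    exact h3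
  have h2 : C i (x j * x k) ^ 2 ∈ N := by
    have h3 := hN.conj_mem _ h (R j (x k))
    rw [← conj_pow, R_conj_C hij (x_mem_O hik.symm), R_apply_self, kill_ne hjk.symm] at h3
    exact h3
  have e : ∀ w : F n, C i w ^ 2 ∈ N → QuotientGroup.mk' N (C i w) * QuotientGroup.mk' N (C i w) = 1
    := by
    intro w hw
    rw [← map_mul, ← pow_two]
    exact (QuotientGroup.eq_one_iff (N := N) _).mpr hw
  have ea := e _ h
  have eb := e _ h1
  have eab := e _ h2
  rw [map_mul, map_mul] at eab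
  refine (QuotientGroup.eq_one_iff (N := N) _).mp ?_
  show QuotientGroup.mk' N (C i ⁅x j, x k⁆) = 1
  rw [map_commutatorElement, map_commutatorElement]
  generalize QuotientGroup.mk' N (C i (x j)) = a at *
  generalize QuotientGroup.mk' N (C i (x k)) = b at *
  have ha : a⁻¹ = a := inv_eq_of_mul_eq_one_left ea
  have hb : b⁻¹ = b := inv_eq_of_mul_eq_one_left eb
  rw [commutatorElement_def, ha, hb, mul_assoc]
  exact eab

end Pool.Agent.CSP4
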