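import Pool.Agent.CSP4.BetaPow
import Pool.Agent.CSP4.Lev1N
import Pool.Agent.CSP3.SteinQ

/-!
# Assembly: normal subgroups containing `T ^ m` and `⁅C 1 (x 2), C 1 (x 3)⁆`
-/

set_option autoImplicit false

namespace Pool.Agent.CSP4

open Pool.Agent.CSP3
open scoped commutatorElement

variable {n : ℕ}

/-- the matrix part: automorphisms which act trivially on the homology modulo `M` lie in `N ⊔ J1 n`
as soon as the normal subgroup `N` contains the `m`-th powers of the transvections -/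
def Transfer (n m : ℕ) : Prop := ∃ M : ℕ, 0 < M ∧ ∀ N : Subgroup (A n), N.Normal →
  (∀ i j : Fin n, i ≠ j → R i (x j) ^ m ∈ N) →
  ∀ ψ : A n, (∀ w : F n, CSP3.ab M (ψ w) = CSP3.ab M w) → ψ ∈ N ⊔ J1 n

/-- an automorphism which acts trivially modulo `Kf n (Hm M)` acts trivially on the homology
modulo `M` -/
theorem ab_of_TrivKf {M : ℕ} {α : A n} (hα : α ∈ TrivKf n (Hm M)) (w : F n) :
    CSP3.ab M (α w) = CSP3.ab M w := by
  apply Multiplicative.toAdd.injective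
  funext i
  have e : ∀ w : F n, ((FreeGroup.lift (fun k : Fin n => (⟨if k = i then 1 else 0, 0, 0⟩ : Hm M))) w).a
      = Multiplicative.toAdd (CSP3.ab M w) i := by
    intro w
    induction w using FreeGroup.induction_on with
    | C1 => simp
    | of k => simp [CSP3.ab, Pi.single_apply, eq_comm]
    | inv_of k hk => rw [map_inv, map_inv, Hm.inv_a, hk]; rfl
    | mul u v hu hv => rw [map_mul, map_mul, Hm.mul_a, hu, hv]; rfl
  rw [← e, ← e]
  exact congrArg Hm.a (hα _ w)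

theorem main_comm_of {m : ℕ} (ht : Transfer n (2 * m)) (hn : 3 ≤ n) (hm : 0 < m) :
    ∃ M : ℕ, 0 < M ∧ ∀ N : Subgroup (A n), N.Normal →
      (∀ i j : Fin n, i ≠ j → R i (x j) ^ m ∈ N) →
      (∃ i j k : Fin n, i ≠ j ∧ i ≠ k ∧ j ≠ k ∧ C i ⁅x j, x k⁆ ∈ N) → TrivKf n (Hm M) ≤ N := by
  obtain ⟨M, hM, ht⟩ := ht
  refine ⟨M * m, Nat.mul_pos hM hm, fun N hN h ⟨i, j, k, hij, hik, hjk, hC⟩ α hα => ?_⟩
  have := hN
  have hJ : ⁅J1 n, J1 n⁆ ≤ N := comm_J1_le hn N hij hik hjk hC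
  let V : Subgroup (A n) := Subgroup.normalClosure {g | ∃ i j : Fin n, i ≠ j ∧ g = R i (x j) ^ (2 * m)}
  have hV1 : V ≤ N := by
    refine Subgroup.normalClosure_le_normal ?_
    rintro _ ⟨i, j, hij, rfl⟩
    show R i (x j) ^ (2 * m) ∈ N
    rw [mul_comm, pow_mul]
    exact N.pow_mem (h i j hij) 2
  have hV2 : V ≤ TrivKf n (Hm m) := by
    refine Subgroup.normalClosure_le_normal ?_
    rintro _ ⟨i, j, hij, rfl⟩
    exact R_pow_mem_TrivKf m i (x j)
  have h1 := ht V Subgroup.normalClosure_normal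
    (fun i j hij => Subgroup.subset_normalClosure ⟨i, j, hij, rfl⟩) α
    (ab_of_TrivKf (TrivKf_mono (Dvd.intro m rfl) hα))
  have : V.Normal := Subgroup.normalClosure_normal
  obtain ⟨ν, hν, β, hβ, rfl⟩ := Subgroup.mem_sup_of_normal_left.mp h1
  refine N.mul_mem (hV1 hν) (beta_mem N h hJ hβ ?_)
  have h2 : ν⁻¹ * (ν * β) ∈ TrivKf n (Hm m) :=
    (TrivKf n (Hm m)).mul_mem ((TrivKf n (Hm m)).inv_mem (hV2 hν))
      (TrivKf_mono (Dvd.intro_left M rfl) hα)
  rwa [inv_mul_cancel_left] at h2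

end Pool.Agent.CSP4
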