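import Pool.Agent.CSP4.J2Comm
import Pool.Agent.CSP3.Magnus

/-!
# Elements of `J1 n` which act trivially modulo a finite Heisenberg quotient

`Hm m`: the Heisenberg group over `ZMod m`; `Kf n Q`: the intersection of the kernels of all
homomorphisms of the free group to a (finite) group `Q`.
If a normal subgroup `N` contains the `m`-th powers of the transvections and `⁅J1 n, J1 n⁆`, then it
contains all elements of `J1 n` (so, by Magnus' theorem, of `IA_n`) which act trivially modulo
`Kf n (Hm m)`.  The `2m`-th powers of the transvections act trivially modulo `Kf n (Hm m)`.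
-/

set_option autoImplicit false

namespace Pool.Agent.CSP4

open Pool.Agent.CSP3
open scoped commutatorElement

variable {n : ℕ}

/-! ### the groups -/

/-- the Heisenberg group modulo `m` -/
@[ext] structure Hm (m : ℕ) where
  a : ZMod m
  b : ZMod m
  c : ZMod m

namespace Hm

variable {m : ℕ}

instance : Mul (Hm m) := ⟨fun u v => ⟨u.a + v.a, u.b + v.b, u.c + v.c + u.a * v.b⟩⟩
instance : One (Hm m) := ⟨⟨0, 0, 0⟩⟩
instance : Inv (Hm m) := ⟨fun u => ⟨-u.a, -u.b, -u.c + u.a * u.b⟩⟩

@[simp] theorem mul_a (u v : Hm m) : (u * v).a = u.a + v.a := rfl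
@[simp] theorem mul_b (u v : Hm m) : (u * v).b = u.b + v.b := rfl
@[simp] theorem mul_c (u v : Hm m) : (u * v).c = u.c + v.c + u.a * v.b := rfl
@[simp] theorem one_a : (1 : Hm m).a = 0 := rfl
@[simp] theorem one_b : (1 : Hm m).b = 0 := rfl
@[simp] theorem one_c : (1 : Hm m).c = 0 := rfl
@[simp] theorem inv_a (u : Hm m) : (u⁻¹).a = -u.a := rfl
@[simp] theorem inv_b (u : Hm m) : (u⁻¹).b = -u.b := rfl
@[simp] theorem inv_c (u : Hm m) : (u⁻¹).c = -u.c + u.a * u.b := rfl

instance : Group (Hm m) :=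
  Group.ofLeftAxioms
    (by intro u v w; ext <;> simp <;> ring)
    (by intro u; ext <;> simp)
    (by intro u; ext <;> simp)

instance [NeZero m] : Finite (Hm m) :=
  Finite.of_injective (fun u : Hm m => (u.a, u.b, u.c)) (by
    intro u v h
    simp only [Prod.mk.injEq] at h
    exact Hm.ext h.1 h.2.1 h.2.2)

theorem pow_ab (u : Hm m) (k : ℕ) : (u ^ k).a = k * u.a ∧ (u ^ k).b = k * u.b := by
  induction k with
  | zero => simp
  | succ k ih =>
    rw [pow_succ, mul_a, mul_b, ih.1, ih.2]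
    push_cast
    constructor <;> ring

theorem pow_c (u : Hm m) (k : ℕ) : 2 * (u ^ k).c = 2 * k * u.c + k * (k - 1) * (u.a * u.b) := by
  induction k with
  | zero => simp
  | succ k ih =>
    rw [pow_succ, mul_c, (pow_ab u k).1, mul_add, mul_add, ih]
    push_cast
    ring

/-- the `2m`-th powers are trivial -/
theorem pow_two_mul (u : Hm m) : u ^ (2 * m) = 1 := by
  have key : ∀ k : ℕ, (u ^ (2 * k)).c = 2 * k * u.c + k * (2 * k - 1) * (u.a * u.b) := by
    intro k
    induction k with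
    | zero => simp
    | succ k ih =>
      rw [show 2 * (k + 1) = 2 * k + 1 + 1 by ring, pow_succ, pow_succ, mul_c, mul_c, mul_a, ih,
        (pow_ab u (2 * k)).1]
      push_cast
      ring
  have hm : (m : ZMod m) = 0 := ZMod.natCast_self m
  ext
  · rw [(pow_ab u _).1]; push_cast; rw [hm]; simp
  · rw [(pow_ab u _).2]; push_cast; rw [hm]; simp
  · rw [key, hm]; simp

end Hm

/-- reduction of the integral Heisenberg group -/
def hred (m : ℕ) : Hs →* Hm m where
  toFun u := ⟨u.a, u.b, u.c⟩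
  map_one' := by ext <;> simp
  map_mul' u v := by ext <;> simp

/-- the intersection of the kernels of all homomorphisms to `Q` -/
def Kf (n : ℕ) (Q : Type) [Group Q] : Subgroup (F n) := ⨅ f : F n →* Q, f.ker

theorem mem_Kf {Q : Type} [Group Q] {w : F n} : w ∈ Kf n Q ↔ ∀ f : F n →* Q, f w = 1 := by
  unfold Kf
  rw [Subgroup.mem_iInf]
  rfl

instance Kf_char (Q : Type) [Group Q] : (Kf n Q).Characteristic := by
  refine Subgroup.characteristic_iff_le_comap.mpr fun φ w hw => ?_
  rw [Subgroup.mem_comap]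
  rw [mem_Kf] at hw ⊢
  intro f
  exact hw (f.comp φ.toMonoidHom)

instance Kf_finiteIndex (Q : Type) [Group Q] [Finite Q] : (Kf n Q).FiniteIndex := by
  unfold Kf
  have : Finite (F n →* Q) := Finite.of_equiv (Fin n → Q) FreeGroup.lift
  have : ∀ f : F n →* Q, f.ker.FiniteIndex := fun f => Subgroup.finiteIndex_ker f
  exact Subgroup.finiteIndex_iInf fun f => inferInstance

/-- the automorphisms which act trivially modulo `Kf n Q` -/
def TrivKf (n : ℕ) (Q : Type) [Group Q] : Subgroup (A n) where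
  carrier := {φ | ∀ (f : F n →* Q) (w : F n), f (φ w) = f w}
  one_mem' := fun f w => rfl
  mul_mem' := by
    intro φ ψ h1 h2 f w
    rw [MulAut.mul_apply, h1, h2]
  inv_mem' := by
    intro φ h f w
    have := h f (φ⁻¹ w)
    rw [MulAut.apply_inv_self] at this
    exact this.symm

theorem mem_TrivKf {Q : Type} [Group Q] {φ : A n} :
    φ ∈ TrivKf n Q ↔ ∀ (f : F n →* Q) (w : F n), f (φ w) = f w := Iff.rfl

theorem mem_TrivKf_iff {Q : Type} [Group Q] {φ : A n} :
    φ ∈ TrivKf n Q ↔ ∀ w : F n, φ w * w⁻¹ ∈ Kf n Q := by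
  rw [mem_TrivKf]
  constructor
  · intro h w
    rw [mem_Kf]
    intro f
    rw [map_mul, map_inv, h, mul_inv_cancel]
  · intro h f w
    have := mem_Kf.mp (h w) f
    rwa [map_mul, map_inv, mul_inv_eq_one] at this

instance TrivKf_normal (Q : Type) [Group Q] : (TrivKf n Q).Normal := by
  constructor
  intro φ hφ ψ f w
  show f (ψ (φ (ψ⁻¹ w))) = f w
  have := hφ (f.comp ψ.toMonoidHom) (ψ⁻¹ w)
  have h2 : f (ψ (φ (ψ⁻¹ w))) = f (ψ (ψ⁻¹ w)) := this
  rw [h2, MulAut.apply_inv_self]

theorem mem_TrivKf_of {Q : Type} [Group Q] {φ : A n} (h : ∀ (f : F n →* Q) (k : Fin n),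
    f (φ (x k)) = f (x k)) : φ ∈ TrivKf n Q := by
  intro f w
  have : f.comp φ.toMonoidHom = f := FreeGroup.ext_hom _ _ fun k => h f k
  exact DFunLike.congr_fun this w

/-- the `2m`-th powers of the transvections act trivially modulo `Kf n (Hm m)` -/
theorem R_pow_mem_TrivKf (m : ℕ) (i : Fin n) (w : F n) : R i w ^ (2 * m) ∈ TrivKf n (Hm m) := by
  refine mem_TrivKf_of fun f k => ?_
  rw [← map_pow]
  by_cases hk : k = i
  · subst hk
    rw [R_apply_self, map_mul, map_pow, map_pow, Hm.pow_two_mul, mul_one]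
  · rw [R_apply_ne hk]

/-! ### the powers in `N` -/

section

variable (N : Subgroup (A n)) [hN : N.Normal] {m : ℕ}

theorem L_pow_mem (h : ∀ i j : Fin n, i ≠ j → R i (x j) ^ m ∈ N) {i j : Fin n} (hij : i ≠ j) :
    L i (x j) ^ m ∈ N := by
  have h1 := hN.conj_mem _ (h i j hij) (sg i)
  rwa [← conj_pow, sg_conj_R_same] at h1

theorem C_pow_mem (h : ∀ i j : Fin n, i ≠ j → R i (x j) ^ m ∈ N) {i j : Fin n} (hij : i ≠ j) :
    C i (x j) ^ m ∈ N := by
  rw [C_eq, (show Commute (L i (x j)) (R i (x j)) from LR_comm i (x j) (x j)).mul_pow]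
  exact N.mul_mem (L_pow_mem N h hij) (h i j hij)

theorem M_pow_mem (h : ∀ i j : Fin n, i ≠ j → R i (x j) ^ m ∈ N) (hJ : ⁅J1 n, J1 n⁆ ≤ N)
    {i j k : Fin n} (hij : i ≠ j) : R i ⁅x j, x k⁆ ^ m ∈ N := by
  have h1 : (C i (x j)⁻¹) ^ m ∈ N := by
    rw [map_inv, inv_pow]; exact N.inv_mem (C_pow_mem N h hij)
  have h2 := hN.conj_mem _ h1 (R i (x k))
  rw [← conj_pow, R_conj_C_same, inv_inv] at h2
  have hc : Commute (QuotientGroup.mk' N (C i (x j)⁻¹)) (QuotientGroup.mk' N (R i ⁅x j, x k⁆)) := by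
    rw [← commutatorElement_eq_one_iff_commute, ← map_commutatorElement]
    exact (QuotientGroup.eq_one_iff (N := N) _).mpr
      (hJ (Subgroup.commutator_mem_commutator (C_mem_J1 _ _) (R_mem_J1 i (comm_mem_lcs1 _ _))))
  have e1 : QuotientGroup.mk' N (C i (x j)⁻¹) ^ m = 1 := by
    rw [← map_pow]; exact (QuotientGroup.eq_one_iff (N := N) _).mpr h1
  have e2 : (QuotientGroup.mk' N (C i (x j)⁻¹) * QuotientGroup.mk' N (R i ⁅x j, x k⁆)) ^ m = 1 := by
    rw [← map_mul, ← map_pow]; exact (QuotientGroup.eq_one_iff (N := N) _).mpr h2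
  rw [hc.mul_pow, e1, one_mul, ← map_pow] at e2
  exact (QuotientGroup.eq_one_iff (N := N) _).mp e2

/-- an element of `J1 n` all whose Johnson coordinates are divisible by `m` -/
theorem mem_of_jT (h : ∀ i j : Fin n, i ≠ j → R i (x j) ^ m ∈ N) (hJ : ⁅J1 n, J1 n⁆ ≤ N)
    {β : A n} (hβ : β ∈ J1 n) (hd : ∀ l p q : Fin n, (m : ℤ) ∣ jT p q β (x l)) : β ∈ N := by
  -- the homomorphism of the abelianization
  let q0 : J1 n →* A n ⧸ N := (QuotientGroup.mk' N).comp (J1 n).subtype
  have hcomm : ∀ a b : J1 n, Commute (q0 a) (q0 b) := by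
    intro a b
    rw [← commutatorElement_eq_one_iff_commute, ← map_commutatorElement]
    exact (QuotientGroup.eq_one_iff (N := N) _).mpr
      (hJ (Subgroup.commutator_mem_commutator a.2 b.2))
  have hab : ∀ g : J1 n, Abelianization.of g = 1 → q0 g = 1 := by
    intro g hg
    have hg2 : g ∈ commutator (J1 n) := by
      rw [← Abelianization.ker_of]; exact hg
    have hle : commutator (J1 n) ≤ q0.ker := by
      rw [commutator_def, Subgroup.commutator_le]
      intro a _ b _
      rw [MonoidHom.mem_ker, map_commutatorElement]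
      exact commutatorElement_eq_one_iff_commute.mpr (hcomm a b)
    exact hle hg2
  -- the `m`-th powers of the generators are killed
  let S : AddSubgroup (Additive (Abelianization (J1 n))) :=
    { carrier := {y | ∀ g : J1 n, Additive.ofMul (Abelianization.of g) = y → q0 g = 1}
      zero_mem' := fun g hg => hab g hg
      add_mem' := by
        intro y z hy hz g hg
        obtain ⟨a, rfl⟩ : ∃ a : J1 n, Additive.ofMul (Abelianization.of a) = y := by
          obtain ⟨a, ha⟩ := QuotientGroup.mk_surjective (Additive.toMul y)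
          exact ⟨a, ha⟩
        have h1 := hy a rfl
        have h2 : q0 (a⁻¹ * g) = 1 := by
          refine hz _ ?_
          rw [map_mul, map_inv, ofMul_mul, ofMul_inv, hg]
          abel
        rw [map_mul, map_inv, h1, inv_one, one_mul] at h2
        exact h2
      neg_mem' := by
        intro y hy g hg
        have h1 := hy g⁻¹ (by rw [map_inv, ofMul_inv, hg, neg_neg])
        rw [map_inv, inv_eq_one] at h1
        exact h1 }
  have hS : ∀ g : J1 n, q0 g = 1 → Additive.ofMul (Abelianization.of g) ∈ S := by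
    intro g hg g' hg'
    have h1 : Abelianization.of (g⁻¹ * g') = 1 := by
      have : Abelianization.of g' = Abelianization.of g := hg'
      rw [map_mul, map_inv, this, inv_mul_cancel]
    have h2 := hab _ h1
    rw [map_mul, map_inv, hg, inv_one, one_mul] at h2
    exact h2
  have hcc : ∀ i j : Fin n, i ≠ j → (m : ℤ) • cc i j ∈ S := by
    intro i j hij
    have : (m : ℤ) • cc i j = Additive.ofMul (Abelianization.of
        ((⟨C i (x j), C_mem_J1 i (x j)⟩ : J1 n) ^ m)) := by
      unfold cc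
      rw [map_pow, ofMul_pow, natCast_zsmul]
    rw [this]
    refine hS _ ?_
    rw [map_pow]
    exact (QuotientGroup.eq_one_iff (N := N) _).mpr (C_pow_mem N h hij)
  have hmm : ∀ i j k : Fin n, i ≠ j → (m : ℤ) • mm i j k ∈ S := by
    intro i j k hij
    have : (m : ℤ) • mm i j k = Additive.ofMul (Abelianization.of
        ((⟨R i ⁅x j, x k⁆, R_mem_J1 i (comm_mem_lcs1 (x j) (x k))⟩ : J1 n) ^ m)) := by
      unfold mm
      rw [map_pow, ofMul_pow, natCast_zsmul]
    rw [this]
    refine hS _ ?_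
    rw [map_pow]
    exact (QuotientGroup.eq_one_iff (N := N) _).mpr (M_pow_mem N h hJ hij)
  have hgen : ∀ t : Fin n × Fin n × Fin n, (m : ℤ) • gen t ∈ S := by
    intro t
    unfold gen
    split_ifs with h1 h2 h3
    · exact hcc _ _ (by rw [← h2]; exact ne_of_lt h1)
    · rw [smul_neg]
      exact S.neg_mem (hcc _ _ (by rw [← h3]; exact ne_of_gt h1))
    · exact hmm _ _ _ (fun e => h2 e.symm)
    · rw [smul_zero]; exact S.zero_mem
  have hfin : Additive.ofMul (Abelianization.of (⟨β, hβ⟩ : J1 n)) ∈ S := by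
    rw [← sig_tau hβ]
    show ∑ t, (Multiplicative.toAdd (tau n ⟨β, hβ⟩)) t • gen t ∈ S
    refine S.sum_mem fun t _ => ?_
    rw [tau_apply]
    obtain ⟨k, hk⟩ := hd t.1 t.2.1 t.2.2
    rw [hk, mul_comm, mul_smul]
    exact S.zsmul_mem (hgen t) k
  exact (QuotientGroup.eq_one_iff (N := N) _).mp (hfin _ rfl)

/-- **the elements of `J1 n` which act trivially modulo `Kf n (Hm m)` lie in `N`** -/
theorem beta_mem (h : ∀ i j : Fin n, i ≠ j → R i (x j) ^ m ∈ N) (hJ : ⁅J1 n, J1 n⁆ ≤ N)
    {β : A n} (hβ : β ∈ J1 n) (hT : β ∈ TrivKf n (Hm m)) : β ∈ N := by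
  refine mem_of_jT N h hJ hβ fun l p q => ?_
  have h1 := hT ((hred m).comp (hs p q)) (x l)
  have h2 := congrArg Hm.c h1
  have h3 : (((hs p q (β (x l))).c : ℤ) : ZMod m) = ((hs p q (x l)).c : ℤ) := h2
  rw [← ZMod.intCast_zmod_eq_zero_iff_dvd]
  unfold jT
  rw [Int.cast_sub, h3, sub_self]

/-- the elements of `IA_n` which act trivially modulo `Kf n (Hm m)` lie in `N` -/
theorem beta_mem' (h : ∀ i j : Fin n, i ≠ j → R i (x j) ^ m ∈ N) (hJ : ⁅J1 n, J1 n⁆ ≤ N)
    {β : A n} (hβ : ∀ k, abz n (β (x k)) = abz n (x k)) (hT : β ∈ TrivKf n (Hm m)) : β ∈ N :=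
  beta_mem N h hJ (magnus hβ) hT

end

/-! ### the homology modulo `m` -/

/-- an automorphism which acts trivially modulo `Kf n (Hm m)` acts trivially on the homology
modulo `m` -/
theorem rz_of_TrivKf {m : ℕ} {α : A n} (hα : α ∈ TrivKf n (Hm m)) (i k : Fin n) :
    (m : ℤ) ∣ Mag.rz n α (Pi.single k 1) i - (Pi.single k 1 : Fin n → ℤ) i := by
  have h1 := hα ((hred m).comp (hs i i)) (x k)
  have h2 := congrArg Hm.a h1
  have h3 : (((hs i i (α (x k))).a : ℤ) : ZMod m) = ((hs i i (x k)).a : ℤ) := h2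
  have e : ∀ w : F n, (hs i i w).a = Multiplicative.toAdd (abz n w) i := by
    intro w
    induction w using FreeGroup.induction_on with
    | C1 => rfl
    | of k => rw [hs_x_a, abz_x, Pi.single_apply]; simp [eq_comm]
    | inv_of k hk => rw [map_inv, map_inv, Hs.inv_a, hk]; rfl
    | mul u v hu hv => rw [map_mul, map_mul, Hs.mul_a, hu, hv]; rfl
  rw [e, e, abz_x] at h3
  rw [Mag.rz_single, ← ZMod.intCast_zmod_eq_zero_iff_dvd, Int.cast_sub, h3, sub_self]

/-- `Kf n (Hm M) ≤ Kf n (Hm m)` for `m ∣ M` -/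
theorem TrivKf_mono {m M : ℕ} (h : m ∣ M) : TrivKf n (Hm M) ≤ TrivKf n (Hm m) := by
  let r : Hm M →* Hm m :=
    { toFun := fun u => ⟨ZMod.castHom h _ u.a, ZMod.castHom h _ u.b, ZMod.castHom h _ u.c⟩
      map_one' := by ext <;> simp
      map_mul' := fun u v => Hm.ext (map_add (ZMod.castHom h (ZMod m)) _ _)
        (map_add (ZMod.castHom h (ZMod m)) _ _) (by
          show ZMod.castHom h (ZMod m) (u.c + v.c + u.a * v.b) = ZMod.castHom h (ZMod m) u.c +
            ZMod.castHom h (ZMod m) v.c + ZMod.castHom h (ZMod m) u.a * ZMod.castHom h (ZMod m) v.b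
          rw [map_add, map_add, map_mul]) }
  have hr : Function.Surjective r := by
    intro u
    obtain ⟨a, ha⟩ := ZMod.castHom_surjective h u.a
    obtain ⟨b, hb⟩ := ZMod.castHom_surjective h u.b
    obtain ⟨c, hc⟩ := ZMod.castHom_surjective h u.c
    exact ⟨⟨a, b, c⟩, Hm.ext ha hb hc⟩
  intro α hα f w
  choose g hg using fun k : Fin n => hr (f (x k))
  have hf : r.comp (FreeGroup.lift g) = f := FreeGroup.ext_hom _ _ fun k => by
    rw [MonoidHom.comp_apply, FreeGroup.lift_apply_of, hg]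
  have := congrArg r (hα (FreeGroup.lift g) w)
  rw [← hf]
  exact this

end Pool.Agent.CSP4
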