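import Mathlib

/-!
# Mennicke symbols over the integers are trivial

`V m a b`: `a ≡ 1`, `b ≡ 0` modulo `m`, and `a`, `b` are coprime.
`MSym m G`: a symbol `s a b` in the group `G`, defined for the pairs with `V m a b`, with the
elementary invariances and the multiplicativity in the second entry.  If `2 ≤ m`, all
symbols are trivial (in any group): Dirichlet's theorem on primes in arithmetic progressions.
-/

set_option autoImplicit false

namespace Pool.Agent.CSP4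

/-- the admissible pairs -/
def V (m a b : ℤ) : Prop := m ∣ a - 1 ∧ m ∣ b ∧ IsCoprime a b

/-- the symbols -/
structure MSym (m : ℤ) (G : Type*) [Group G] where
  s : ℤ → ℤ → G
  h1 : ∀ a b t : ℤ, V m a b → m ∣ t → s a (b + t * a) = s a b
  h2 : ∀ a b t : ℤ, V m a b → s (a + t * b) b = s a b
  h3 : ∀ a b : ℤ, V m a b → s a (-b) = s a b
  h4 : ∀ a b₁ b₂ c₂ d₂ : ℤ, V m a b₁ → V m a b₂ → m ∣ c₂ → m ∣ d₂ - 1 →
    a * d₂ - b₂ * c₂ = 1 → s a b₁ * (s a b₂)⁻¹ = s a (b₁ * c₂)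
  h6 : m ∣ 2 → s (-1) 0 = 1

theorem coprime_of_dvd_sub_one {m a : ℤ} (h : m ∣ a - 1) : IsCoprime a m := by
  obtain ⟨k, hk⟩ := h
  exact ⟨1, -k, by linear_combination hk⟩

/-- a completion of the first row -/
theorem exists_row {m a b : ℤ} (h : V m a b) :
    ∃ c d : ℤ, m ∣ c ∧ m ∣ d - 1 ∧ a * d - b * c = 1 := by
  obtain ⟨ha, hb, u, v, huv⟩ := h
  have e : a * (u + b * v) - b * (-(v - a * v)) = 1 := by linear_combination huv
  have hc : m ∣ -(v - a * v) := by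
    have : -(v - a * v) = (a - 1) * v := by ring
    rw [this]; exact Dvd.dvd.mul_right ha v
  refine ⟨-(v - a * v), u + b * v, hc, ?_, e⟩
  have : u + b * v - 1 = -((a - 1) * (u + b * v)) + b * (-(v - a * v)) := by
    linear_combination e
  rw [this]
  exact dvd_add ((Dvd.dvd.mul_right ha _).neg_right) (Dvd.dvd.mul_right hb _)

namespace MSym

variable {m : ℤ} {G : Type*} [Group G] (S : MSym m G)

theorem V_neg {a b : ℤ} (h : V m a b) : V m a (-b) :=
  ⟨h.1, (dvd_neg).mpr h.2.1, h.2.2.neg_right⟩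

theorem indep_right {a b b' : ℤ} (h : V m a b) (h' : V m a b') (hd : a ∣ b' - b) :
    S.s a b' = S.s a b := by
  obtain ⟨t, ht⟩ := hd
  have hmt : m ∣ t := by
    have h1 : m ∣ a * t := by rw [← ht]; exact dvd_sub h'.2.1 h.2.1
    exact (coprime_of_dvd_sub_one h.1).symm.dvd_of_dvd_mul_left h1
  have : b' = b + t * a := by linear_combination ht
  rw [this]
  exact S.h1 a b t h hmt

theorem indep_left {a a' b : ℤ} (h : V m a b) (hd : b ∣ a' - a) : S.s a' b = S.s a b := by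
  obtain ⟨t, ht⟩ := hd
  have : a' = a + t * b := by linear_combination ht
  rw [this]
  exact S.h2 a b t h

theorem div_right {a b₁ b₂ b₃ : ℤ} (h₁ : V m a b₁) (h₂ : V m a b₂) (h₃ : V m a b₃)
    (hd : a ∣ b₃ * b₂ - b₁) : S.s a b₃ = S.s a b₁ * (S.s a b₂)⁻¹ := by
  obtain ⟨c₂, d₂, hc, hd₂, e⟩ := exists_row h₂
  rw [S.h4 a b₁ b₂ c₂ d₂ h₁ h₂ hc hd₂ e, ← S.h3 a b₃ h₃]
  have hV : V m a (b₁ * c₂) := by
    refine ⟨h₁.1, Dvd.dvd.mul_right h₁.2.1 _, h₁.2.2.mul_right ?_⟩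
    exact ⟨d₂, -b₂, by linear_combination e⟩
  refine S.indep_right hV (V_neg h₃) ?_
  obtain ⟨k, hk⟩ := hd
  refine ⟨-(b₃ * d₂) + k * c₂, ?_⟩
  linear_combination b₃ * e + c₂ * hk

/-! ### the homomorphism for a fixed first entry -/

section Right

variable {p : ℕ} [Fact p.Prime]

/-- a representative divisible by `m` -/
noncomputable def repR (m : ℤ) (p : ℕ) (x : ZMod p) : ℤ := m * ((x * (m : ZMod p)⁻¹).val : ℤ)

theorem repR_cast (hpm : IsCoprime (m : ℤ) p) (x : ZMod p) :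
    ((repR m p x : ℤ) : ZMod p) = x := by
  have hu : IsUnit (m : ZMod p) := by
    rw [ZMod.coe_int_isUnit_iff_isCoprime]; exact hpm.symm
  unfold repR
  rw [Int.cast_mul, Int.cast_natCast, ZMod.natCast_zmod_val, mul_comm, mul_assoc,
    inv_mul_cancel₀ hu.ne_zero, mul_one]

theorem V_repR (hpm : IsCoprime (m : ℤ) p) (ha : m ∣ -(p : ℤ) - 1) {x : ZMod p} (hx : x ≠ 0) :
    V m (-(p : ℤ)) (repR m p x) := by
  refine ⟨ha, Dvd.intro _ rfl, ?_⟩
  have h1 : IsUnit ((repR m p x : ℤ) : ZMod p) := by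
    rw [repR_cast hpm]; exact hx.isUnit
  rw [ZMod.coe_int_isUnit_iff_isCoprime] at h1
  exact h1.neg_left

/-- the homomorphism -/
noncomputable def homR (hpm : IsCoprime (m : ℤ) p) (ha : m ∣ -(p : ℤ) - 1) : (ZMod p)ˣ →* G :=
  MonoidHom.ofMapMulInv (fun x => S.s (-(p : ℤ)) (repR m p x)) (by
    intro x y
    refine S.div_right (V_repR hpm ha x.ne_zero) (V_repR hpm ha y.ne_zero)
      (V_repR hpm ha (x * y⁻¹).ne_zero) ?_
    rw [neg_dvd, ← ZMod.intCast_zmod_eq_zero_iff_dvd, Int.cast_sub, Int.cast_mul, repR_cast hpm,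
      repR_cast hpm, repR_cast hpm, ← Units.val_mul, inv_mul_cancel_right, sub_self])

theorem homR_apply (hpm : IsCoprime (m : ℤ) p) (ha : m ∣ -(p : ℤ) - 1) (x : (ZMod p)ˣ) :
    S.homR hpm ha x = S.s (-(p : ℤ)) (repR m p x) := rfl

theorem homR_eq (hpm : IsCoprime (m : ℤ) p) (ha : m ∣ -(p : ℤ) - 1) {b : ℤ}
    (hb : V m (-(p : ℤ)) b) (x : (ZMod p)ˣ) (hx : (x : ZMod p) = b) :
    S.homR hpm ha x = S.s (-(p : ℤ)) b := by
  rw [homR_apply]
  refine S.indep_right hb (V_repR hpm ha x.ne_zero) ?_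
  rw [neg_dvd, ← ZMod.intCast_zmod_eq_zero_iff_dvd, Int.cast_sub, repR_cast hpm, hx, sub_self]

theorem homR_neg_one (hpm : IsCoprime (m : ℤ) p) (ha : m ∣ -(p : ℤ) - 1) :
    S.homR hpm ha (-1) = 1 := by
  have h1 : S.homR hpm ha 1 = 1 := map_one _
  rw [homR_apply] at h1
  have hV := V_repR hpm ha (x := ((1 : (ZMod p)ˣ) : ZMod p)) (Units.ne_zero 1)
  rw [S.homR_eq hpm ha (V_neg hV) (-1) (by
    rw [Int.cast_neg, repR_cast hpm, Units.val_neg]), S.h3 _ _ hV, h1]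

end Right

/-- every prime `p ≡ -a` modulo `b` gives a relation -/
theorem pow_eq_one {a b : ℤ} (hV : V m a b) {p : ℕ} (hpp : p.Prime) (hp4 : p % 4 = 3)
    (hbp : b ∣ -(p : ℤ) - a) : (S.s a b) ^ ((p - 1) / 2) = 1 := by
  haveI : Fact p.Prime := ⟨hpp⟩
  have hmp1 : m ∣ -(p : ℤ) - 1 := by
    have e1 : -(p : ℤ) - 1 = (-(p : ℤ) - a) + (a - 1) := by ring
    rw [e1]; exact dvd_add (hV.2.1.trans hbp) hV.1
  have hVp : V m (-(p : ℤ)) b := by
    refine ⟨hmp1, hV.2.1, ?_⟩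
    obtain ⟨k, hk⟩ := hbp
    have e1 : -(p : ℤ) = a + b * k := by linear_combination hk
    rw [e1]
    exact IsCoprime.add_mul_left_left hV.2.2 k
  have hpm : IsCoprime (m : ℤ) p := by
    obtain ⟨k, hk⟩ := hmp1
    exact ⟨-k, -1, by linear_combination hk⟩
  have hs1 : S.s (-(p : ℤ)) b = S.s a b := S.indep_left hV hbp
  obtain ⟨x, hx⟩ : IsUnit ((b : ℤ) : ZMod p) := by
    rw [ZMod.coe_int_isUnit_iff_isCoprime]
    have h1 := hVp.2.2.neg_left
    rwa [neg_neg] at h1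
  have hs2 : S.homR hpm hmp1 x = S.s a b := by
    rw [S.homR_eq hpm hmp1 hVp x hx, hs1]
  obtain ⟨k, hk⟩ : ∃ k : ℕ, p = 4 * k + 3 := ⟨p / 4, by omega⟩
  have ek : (p - 1) / 2 = 2 * k + 1 := by omega
  rw [ek, ← hs2, ← map_pow]
  have h5 : x ^ (2 * k + 1) * x ^ (2 * k + 1) = 1 := by
    rw [← pow_add]
    have := ZMod.units_pow_card_sub_one_eq_one p x
    have e1 : p - 1 = 2 * k + 1 + (2 * k + 1) := by omega
    rwa [e1] at this
  have h6 : x ^ (2 * k + 1) = 1 ∨ x ^ (2 * k + 1) = -1 := by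
    have h7 : ((x ^ (2 * k + 1) : (ZMod p)ˣ) : ZMod p) * ((x ^ (2 * k + 1) : (ZMod p)ˣ) : ZMod p) = 1 := by
      rw [← Units.val_mul, h5, Units.val_one]
    rcases mul_self_eq_one_iff.mp h7 with h8 | h8
    · left; exact Units.ext (by rw [h8, Units.val_one])
    · right; exact Units.ext (by rw [h8, Units.val_neg, Units.val_one])
  rcases h6 with h6 | h6
  · rw [h6, map_one]
  · rw [h6, S.homR_neg_one hpm hmp1]

/-- Dirichlet's theorem with an integral modulus -/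
theorem exists_prime (N : ℕ) {a b : ℤ} (hb : b ≠ 0) (h : IsCoprime a b) :
    ∃ p : ℕ, N < p ∧ p.Prime ∧ b ∣ a - p := by
  obtain ⟨p, hpgt, hpp, hpmod⟩ := Nat.forall_exists_prime_gt_and_zmodEq N
    (q := b.natAbs) (a := a) (by simpa using hb) (by
      rw [Int.natCast_natAbs]
      rcases abs_choice b with h1 | h1
      · rw [h1]; exact h
      · rw [h1]; exact h.neg_right)
  exact ⟨p, hpgt, hpp, Int.natAbs_dvd.mp (Int.modEq_iff_dvd.mp hpmod)⟩

/-- the residue class of the primes -/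
theorem exists_residue {a D : ℤ} (hc : IsCoprime a D) (h4 : (4 : ℤ) ∣ D → (4 : ℤ) ∣ a - 1) :
    ∃ k : ℤ, (4 : ℤ) ∣ -a + D * k + 1 := by
  by_cases h0 : (4 : ℤ) ∣ D
  · refine ⟨0, ?_⟩
    have := h4 h0
    omega
  by_cases h2 : (2 : ℤ) ∣ D
  · have ha : ¬ (2 : ℤ) ∣ a := by
      intro h
      have h1 := hc.isUnit_of_dvd' h h2
      rw [Int.isUnit_iff] at h1
      omega
    by_cases h3 : (4 : ℤ) ∣ -a + 1
    · exact ⟨0, by omega⟩
    · exact ⟨1, by omega⟩
  · have hD : D % 4 = 1 ∨ D % 4 = 3 := by omega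
    have ha : a % 4 = 0 ∨ a % 4 = 1 ∨ a % 4 = 2 ∨ a % 4 = 3 := by omega
    rcases hD with hD | hD <;> rcases ha with ha | ha | ha | ha
    · exact ⟨3, by omega⟩
    · exact ⟨0, by omega⟩
    · exact ⟨1, by omega⟩
    · exact ⟨2, by omega⟩
    · exact ⟨1, by omega⟩
    · exact ⟨0, by omega⟩
    · exact ⟨3, by omega⟩
    · exact ⟨2, by omega⟩

/-- **the symbols are trivial** -/
theorem s_eq_one (hm : 2 ≤ m) {a b : ℤ} (hV : V m a b) : S.s a b = 1 := by
  have ha0 : a ≠ 0 := by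
    rintro rfl
    obtain ⟨k, hk⟩ := hV.1
    have h1 : m ∣ 1 := ⟨-k, by linear_combination -hk⟩
    have := Int.le_of_dvd (by norm_num) h1
    omega
  by_cases ha1 : a = -1
  · subst ha1
    have h1 : m ∣ 2 := by
      obtain ⟨k, hk⟩ := hV.1
      exact ⟨-k, by linear_combination -hk⟩
    have h2 := S.h1 (-1) 0 (-b) ⟨hV.1, dvd_zero m, isCoprime_one_left.neg_left⟩
      ((dvd_neg).mpr hV.2.1)
    have e : 0 + -b * -1 = b := by ring
    rw [e] at h2
    rw [h2, S.h6 h1]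
  -- the second entry `m q`
  obtain ⟨b', hb'⟩ := hV.2.1
  have hcb' : IsCoprime b' a := by
    have h1 := hV.2.2
    rw [hb'] at h1
    exact (h1.of_mul_right_right).symm
  obtain ⟨q, hqgt, hqp, hqd⟩ := exists_prime (a.natAbs + 1) ha0 hcb'
  have hcq : IsCoprime a (q : ℤ) := by
    obtain ⟨j, hj⟩ := hqd
    have e1 : (q : ℤ) = b' + a * (-j) := by linear_combination -hj
    rw [e1]
    exact (IsCoprime.add_mul_left_left hcb' _).symm
  have hVq : V m a (m * q) :=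
    ⟨hV.1, Dvd.intro _ rfl, (coprime_of_dvd_sub_one hV.1).mul_right hcq⟩
  have hs1 : S.s a (m * q) = S.s a b := by
    refine S.indep_right hV hVq ?_
    obtain ⟨j, hj⟩ := hqd
    exact ⟨-(m * j), by rw [hb']; linear_combination (-m) * hj⟩
  have hmq0 : m * (q : ℤ) ≠ 0 :=
    mul_ne_zero (by omega) (by exact_mod_cast hqp.ne_zero)
  have hqodd : ¬ (2 : ℤ) ∣ (q : ℤ) := by
    intro h
    have h1 : 2 ∣ q := by exact_mod_cast h
    have h2 := (Nat.prime_dvd_prime_iff_eq Nat.prime_two hqp).mp h1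
    have h3 : a.natAbs ≠ 0 := Int.natAbs_ne_zero.mpr ha0
    omega
  rw [← hs1]
  -- the residue class
  obtain ⟨k, hk⟩ := exists_residue (D := m * q) hVq.2.2 (by
    intro h
    have h1 : IsCoprime (4 : ℤ) (q : ℤ) := by
      have h2 : IsCoprime (2 : ℤ) (q : ℤ) := (Int.prime_two.coprime_iff_not_dvd).mpr hqodd
      have h3 : (4 : ℤ) = 2 * 2 := by norm_num
      rw [h3]; exact h2.mul_left h2
    exact (h1.dvd_of_dvd_mul_right h).trans hV.1)
  set r₀ : ℤ := -a + m * q * k with hr₀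
  have hr₀c : IsCoprime r₀ ((m * q) * 4) := by
    refine IsCoprime.mul_right ?_ ?_
    · rw [hr₀]; exact IsCoprime.add_mul_left_left hVq.2.2.neg_left _
    · obtain ⟨j, hj⟩ := hk
      exact ⟨-1, j, by linear_combination -hj⟩
  have hM0 : (m * (q : ℤ)) * 4 ≠ 0 := mul_ne_zero hmq0 (by norm_num)
  have key : ∀ p : ℕ, (m * (q : ℤ)) * 4 ∣ r₀ - p → m * (q : ℤ) ∣ -(p : ℤ) - a ∧ p % 4 = 3 := by
    intro p hp
    constructor
    · have h1 : m * (q : ℤ) ∣ r₀ - p := (Dvd.intro _ rfl).trans hp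
      have e : -(p : ℤ) - a = (r₀ - p) - (m * q) * k := by rw [hr₀]; ring
      rw [e]; exact dvd_sub h1 (Dvd.intro _ rfl)
    · have h1 : (4 : ℤ) ∣ r₀ - p := (Dvd.intro_left _ rfl).trans hp
      omega
  have hmp : ∀ p : ℕ, m * (q : ℤ) ∣ -(p : ℤ) - a → (m : ℤ) ∣ p + 1 := by
    intro p hp
    have h1 : m ∣ -(p : ℤ) - a := (Dvd.intro _ rfl).trans hp
    have e : (p : ℤ) + 1 = -((-(p : ℤ) - a) + (a - 1)) := by ring
    rw [e]
    exact (dvd_add h1 hV.1).neg_right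
  -- the first prime
  obtain ⟨p₀, -, hp₀, hd₀⟩ := exists_prime 0 hM0 hr₀c
  have hk₀ := key p₀ hd₀
  have t₀ := S.pow_eq_one hVq hp₀ hk₀.2 hk₀.1
  set u : ℕ := (p₀ - 1) / 2 with hu
  have huodd : u % 2 = 1 := by
    have := hk₀.2
    omega
  have hupos : u ≠ 0 := by omega
  -- the primes dividing `u` and not `m q`
  let P : Finset ℕ := u.primeFactors.filter (fun l => ¬ ((l : ℤ) ∣ m * q))
  let L : ℕ := ∏ l ∈ P, l
  have hL0 : L ≠ 0 := by
    refine Finset.prod_ne_zero_iff.mpr fun l hl => ?_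
    exact (Nat.prime_of_mem_primeFactors (Finset.mem_filter.mp hl).1).ne_zero
  have hLc : IsCoprime ((m * (q : ℤ)) * 4) (L : ℤ) := by
    show IsCoprime ((m * (q : ℤ)) * 4) ((∏ l ∈ P, l : ℕ) : ℤ)
    rw [Nat.cast_prod]
    refine IsCoprime.prod_right fun l hl => ?_
    have hl' := Finset.mem_filter.mp hl
    have hlp := Nat.prime_of_mem_primeFactors hl'.1
    have h1 : Prime (l : ℤ) := Nat.prime_iff_prime_int.mp hlp
    refine ((h1.coprime_iff_not_dvd).mpr fun h => ?_).symm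
    rcases h1.dvd_or_dvd h with h2 | h2
    · exact hl'.2 h2
    · have h3 : (4 : ℤ) = 2 * 2 := by norm_num
      rw [h3] at h2
      have h5 : (l : ℤ) ∣ 2 := by
        rcases h1.dvd_or_dvd h2 with h6 | h6 <;> exact h6
      have h6 : l ∣ 2 := by exact_mod_cast h5
      have h7 := (Nat.prime_dvd_prime_iff_eq hlp Nat.prime_two).mp h6
      have h8 := Nat.dvd_of_mem_primeFactors hl'.1
      rw [h7] at h8
      omega
  obtain ⟨s, t, hst⟩ := hLc
  -- `r ≡ r₀` modulo `4 m q`, `r ≡ -1` modulo `L`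
  set r : ℤ := r₀ * (t * L) - s * ((m * q) * 4) with hr
  have hr1 : r = r₀ + ((m * q) * 4) * (-(r₀ * s) - s) := by
    rw [hr]; linear_combination r₀ * hst
  have hr2 : r = -1 + (L : ℤ) * (t + r₀ * t) := by
    rw [hr]; linear_combination (-1 : ℤ) * hst
  have hrc : IsCoprime r (((m * q) * 4) * (L : ℤ)) := by
    refine IsCoprime.mul_right ?_ ?_
    · rw [hr1]; exact IsCoprime.add_mul_left_left hr₀c _
    · rw [hr2]; exact IsCoprime.add_mul_left_left (isCoprime_one_left.neg_left) _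
  obtain ⟨p, -, hpp, hpd⟩ := exists_prime 0
    (mul_ne_zero hM0 (by exact_mod_cast hL0)) hrc
  have hpd0 : (m * (q : ℤ)) * 4 ∣ r₀ - p := by
    have h1 : (m * (q : ℤ)) * 4 ∣ r - p := (Dvd.intro _ rfl).trans hpd
    have e : r₀ - (p : ℤ) = (r - p) - ((m * q) * 4) * (-(r₀ * s) - s) := by rw [hr1]; ring
    rw [e]; exact dvd_sub h1 (Dvd.intro _ rfl)
  have hpd2 : (L : ℤ) ∣ p + 1 := by
    have h1 : (L : ℤ) ∣ r - p := (Dvd.intro_left _ rfl).trans hpd
    have e : (p : ℤ) + 1 = (L : ℤ) * (t + r₀ * t) - (r - p) := by rw [hr2]; ring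
    rw [e]; exact dvd_sub (Dvd.intro _ rfl) h1
  have hk₁ := key p hpd0
  have t₁ := S.pow_eq_one hVq hpp hk₁.2 hk₁.1
  -- the two exponents are coprime
  have hcop : Nat.Coprime ((p - 1) / 2) u := by
    refine Nat.coprime_of_dvd fun l hl h1 h2 => ?_
    have hl2 : l ≠ 2 := by
      rintro rfl
      obtain ⟨j, hj⟩ := h2
      omega
    have hp1 : (l : ℤ) ∣ (p : ℤ) - 1 := by
      have h3 : p - 1 = 2 * ((p - 1) / 2) := by
        have := hk₁.2
        omega
      have h6 : l ∣ p - 1 := by rw [h3]; exact Dvd.dvd.mul_left h1 2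
      have h7 : ((p - 1 : ℕ) : ℤ) = (p : ℤ) - 1 := by
        rw [Nat.cast_sub hpp.one_lt.le]; simp
      rw [← h7]
      exact_mod_cast h6
    have hno : ¬ (l : ℤ) ∣ (p : ℤ) + 1 := by
      intro h3
      have h5 : (l : ℤ) ∣ 2 := by
        have e : (2 : ℤ) = ((p : ℤ) + 1) - ((p : ℤ) - 1) := by ring
        rw [e]; exact dvd_sub h3 hp1
      have h6 : l ∣ 2 := by exact_mod_cast h5
      exact hl2 ((Nat.prime_dvd_prime_iff_eq hl Nat.prime_two).mp h6)
    by_cases hmq : (l : ℤ) ∣ m * q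
    · have hlI : Prime (l : ℤ) := Nat.prime_iff_prime_int.mp hl
      rcases hlI.dvd_or_dvd hmq with h3 | h3
      · exact hno (h3.trans (hmp p hk₁.1))
      · have h5 : l ∣ q := by exact_mod_cast h3
        have h6 : l = q := (Nat.prime_dvd_prime_iff_eq hl hqp).mp h5
        subst h6
        have h7 : (l : ℤ) ∣ -(p : ℤ) - a := (Dvd.intro_left _ rfl).trans hk₁.1
        have h8 : (l : ℤ) ∣ a + 1 := by
          have e : a + 1 = -((-(p : ℤ) - a) + ((p : ℤ) - 1)) := by ring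
          rw [e]; exact (dvd_add h7 hp1).neg_right
        have h9 : a + 1 ≠ 0 := fun h => ha1 (by omega)
        have h10 := Int.le_of_dvd (abs_pos.mpr h9) ((dvd_abs _ _).mpr h8)
        have h11 : |a + 1| ≤ |a| + 1 := by
          have := abs_add_le a 1
          rwa [abs_one] at this
        have h12 : (a.natAbs : ℤ) = |a| := Int.natCast_natAbs a
        have h13 : (a.natAbs : ℤ) + 1 < l := by exact_mod_cast hqgt
        omega
    · have h3 : l ∣ L := Finset.dvd_prod_of_mem (fun l => l)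
        (Finset.mem_filter.mpr ⟨Nat.mem_primeFactors.mpr ⟨hl, h2, hupos⟩, hmq⟩)
      have h5 : (l : ℤ) ∣ (L : ℤ) := by exact_mod_cast h3
      exact hno (h5.trans hpd2)
  have d1 : orderOf (S.s a (m * q)) ∣ (p - 1) / 2 := orderOf_dvd_of_pow_eq_one t₁
  have d2 : orderOf (S.s a (m * q)) ∣ u := orderOf_dvd_of_pow_eq_one t₀
  have d3 := Nat.dvd_gcd d1 d2
  rw [hcop.gcd_eq_one, Nat.dvd_one, orderOf_eq_one_iff] at d3
  exact d3

end MSym

end Pool.Agent.CSP4
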