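import Pool.Agent.CSP4.SLBase
import Pool.Agent.CSP4.SLArith

/-!
# The Mennicke symbol of a homomorphism from `SL₃(ℤ)` that kills the elementary matrices with
entry `m`
-/

set_option autoImplicit false

namespace Pool.Agent.CSP4

theorem m3_ext {a b c d e g h k l a' b' c' d' e' g' h' k' l' : ℤ} (h1 : a = a') (h2 : b = b')
    (h3 : c = c') (h4 : d = d') (h5 : e = e') (h6 : g = g') (h7 : h = h') (h8 : k = k')
    (h9 : l = l') : !![a, b, c; d, e, g; h, k, l] = !![a', b', c'; d', e', g'; h', k', l'] := by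
  rw [h1, h2, h3, h4, h5, h6, h7, h8, h9]

/-! ### explicit matrices -/

theorem n01 : (0 : Fin 3) ≠ 1 := by decide
theorem n02 : (0 : Fin 3) ≠ 2 := by decide
theorem n10 : (1 : Fin 3) ≠ 0 := by decide
theorem n12 : (1 : Fin 3) ≠ 2 := by decide
theorem n20 : (2 : Fin 3) ≠ 0 := by decide
theorem n21 : (2 : Fin 3) ≠ 1 := by decide

theorem mt01 (t : ℤ) : mt (el n01 t) = !![1, t, 0; 0, 1, 0; 0, 0, 1] := by
  rw [mt_el]; ext i j
  fin_cases i <;> fin_cases j <;> simp [Matrix.transvection, Matrix.single_apply]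

theorem mt02 (t : ℤ) : mt (el n02 t) = !![1, 0, t; 0, 1, 0; 0, 0, 1] := by
  rw [mt_el]; ext i j
  fin_cases i <;> fin_cases j <;> simp [Matrix.transvection, Matrix.single_apply]

theorem mt10 (t : ℤ) : mt (el n10 t) = !![1, 0, 0; t, 1, 0; 0, 0, 1] := by
  rw [mt_el]; ext i j
  fin_cases i <;> fin_cases j <;> simp [Matrix.transvection, Matrix.single_apply]

theorem mt12 (t : ℤ) : mt (el n12 t) = !![1, 0, 0; 0, 1, t; 0, 0, 1] := by
  rw [mt_el]; ext i j
  fin_cases i <;> fin_cases j <;> simp [Matrix.transvection, Matrix.single_apply]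

theorem mt20 (t : ℤ) : mt (el n20 t) = !![1, 0, 0; 0, 1, 0; t, 0, 1] := by
  rw [mt_el]; ext i j
  fin_cases i <;> fin_cases j <;> simp [Matrix.transvection, Matrix.single_apply]

theorem mt21 (t : ℤ) : mt (el n21 t) = !![1, 0, 0; 0, 1, 0; 0, t, 1] := by
  rw [mt_el]; ext i j
  fin_cases i <;> fin_cases j <;> simp [Matrix.transvection, Matrix.single_apply]

/-- the block at the indices `1`, `2` -/
def blk (a b c d : ℤ) (h : a * d - b * c = 1) : SLn 3 :=
  inl ⟨!![a, b; c, d], by rw [Matrix.det_fin_two_of]; exact h⟩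

theorem mt_blk (a b c d : ℤ) (h : a * d - b * c = 1) :
    mt (blk a b c d h) = !![1, 0, 0; 0, a, b; 0, c, d] := by
  unfold blk
  rw [mt_inl]
  ext i j
  fin_cases i <;> fin_cases j <;> rfl

/-- the block at the indices `1`, `0` -/
def blk10 (a b c d : ℤ) (h : a * d - b * c = 1) : SLn 3 :=
  ⟨!![d, c, 0; b, a, 0; 0, 0, 1], by
    rw [Matrix.det_fin_three]
    simp
    linear_combination h⟩

theorem mt_blk10 (a b c d : ℤ) (h : a * d - b * c = 1) :
    mt (blk10 a b c d h) = !![d, c, 0; b, a, 0; 0, 0, 1] := rfl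

/-- the block at the indices `0`, `2` -/
def blk02 (a b c d : ℤ) (h : a * d - b * c = 1) : SLn 3 :=
  ⟨!![a, 0, b; 0, 1, 0; c, 0, d], by
    rw [Matrix.det_fin_three]
    simp
    linear_combination h⟩

theorem mt_blk02 (a b c d : ℤ) (h : a * d - b * c = 1) :
    mt (blk02 a b c d h) = !![a, 0, b; 0, 1, 0; c, 0, d] := rfl

/-! ### matrix identities -/

section Identities

variable (a b c d : ℤ) (h : a * d - b * c = 1)

theorem blk_el10 (t : ℤ) : blk a b c d h * el n10 t =
    el n10 (t * a) * el n20 (t * c) * blk a b c d h := by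
  apply mt_inj
  simp only [mt_mul, mt_blk, mt10, mt20, Matrix.mul_fin_three]
  apply m3_ext <;> ring

theorem blk_el20 (t : ℤ) : blk a b c d h * el n20 t =
    el n10 (t * b) * el n20 (t * d) * blk a b c d h := by
  apply mt_inj
  simp only [mt_mul, mt_blk, mt10, mt20, Matrix.mul_fin_three]
  apply m3_ext <;> ring

theorem el01_blk (t : ℤ) : el n01 t * blk a b c d h =
    blk a b c d h * (el n01 (t * a) * el n02 (t * b)) := by
  apply mt_inj
  simp only [mt_mul, mt_blk, mt01, mt02, Matrix.mul_fin_three]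
  apply m3_ext <;> ring

theorem el02_blk (t : ℤ) : el n02 t * blk a b c d h =
    blk a b c d h * (el n01 (t * c) * el n02 (t * d)) := by
  apply mt_inj
  simp only [mt_mul, mt_blk, mt01, mt02, Matrix.mul_fin_three]
  apply m3_ext <;> ring

end Identities

theorem el12_eq (t : ℤ) : (el n12 t : SLn 3) =
    el n10 t * el n02 1 * (el n10 t)⁻¹ * (el n02 1)⁻¹ := by
  rw [← el_neg, ← el_neg]
  apply mt_inj
  simp only [mt_mul, mt10, mt02, mt12, Matrix.mul_fin_three]
  apply m3_ext <;> ring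

theorem el21_eq (t : ℤ) : (el n21 t : SLn 3) =
    el n20 t * el n01 1 * (el n20 t)⁻¹ * (el n01 1)⁻¹ := by
  rw [← el_neg, ← el_neg]
  apply mt_inj
  simp only [mt_mul, mt20, mt01, mt21, Matrix.mul_fin_three]
  apply m3_ext <;> ring

/-- the signed permutation `e₂ ↦ e₀`, `e₀ ↦ -e₂` -/
def w1 : SLn 3 := el n02 1 * el n20 (-1) * el n02 1

/-- the signed permutation `e₁ ↦ e₀`, `e₀ ↦ -e₁` -/
def w2 : SLn 3 := el n01 1 * el n10 (-1) * el n01 1

theorem w1_blk (a b c d : ℤ) (h : a * d - b * c = 1) :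
    w1 * blk a b c d h = blk10 a b c d h * w1 := by
  apply mt_inj
  unfold w1
  simp only [mt_mul, mt_blk, mt_blk10, mt02, mt20, Matrix.mul_fin_three]
  apply m3_ext <;> ring

theorem w2_blk (a b c d : ℤ) (h : a * d - b * c = 1) :
    w2 * blk a b c d h = blk02 a b c d h * w2 := by
  apply mt_inj
  unfold w2
  simp only [mt_mul, mt_blk, mt_blk02, mt01, mt10, Matrix.mul_fin_three]
  apply m3_ext <;> ring

theorem blk_inj (a b c d c' d' : ℤ) (h : a * d - b * c = 1) (h' : a * d' - b * c' = 1) :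
    blk a b c' d' h' = el n21 (c' * d - d' * c) * blk a b c d h := by
  apply mt_inj
  simp only [mt_mul, mt_blk, mt21, Matrix.mul_fin_three]
  apply m3_ext
  · ring
  · ring
  · ring
  · ring
  · ring
  · ring
  · ring
  · linear_combination c * h' - c' * h
  · linear_combination d * h' - d' * h

theorem blk_add (a b c d t : ℤ) (h : a * d - b * c = 1) (h' : a * (d + t * c) - (b + t * a) * c = 1) :
    blk a (b + t * a) c (d + t * c) h' = blk a b c d h * el n12 t := by
  apply mt_inj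
  simp only [mt_mul, mt_blk, mt12, Matrix.mul_fin_three]
  apply m3_ext <;> ring

theorem blk_conj (a b c d t : ℤ) (h : a * d - b * c = 1)
    (h' : (a + t * b) * (d - t * b) - b * (c + t * d - t * (a + t * b)) = 1) :
    blk (a + t * b) b (c + t * d - t * (a + t * b)) (d - t * b) h' =
      el n21 (-t) * blk a b c d h * el n21 t := by
  apply mt_inj
  simp only [mt_mul, mt_blk, mt21, Matrix.mul_fin_three]
  apply m3_ext <;> ring

theorem blk_neg (a b c d : ℤ) (h : a * d - b * c = 1) (h' : a * d - (-b) * (-c) = 1) :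
    w1 * w1 * blk a b c d h = blk a (-b) (-c) d h' * (w1 * w1) := by
  apply mt_inj
  unfold w1
  simp only [mt_mul, mt_blk, mt02, mt20, Matrix.mul_fin_three]
  apply m3_ext <;> ring

/-- the multiplicativity in the second entry -/
theorem mul_right_id (a b₁ c₁ d₁ b₂ c₂ d₂ : ℤ) (h₁ : a * d₁ - b₁ * c₁ = 1)
    (h₂ : a * d₂ - b₂ * c₂ = 1)
    (h : a * (d₁ - b₁ * c₁ * d₂) - (b₁ * c₂) * (-(b₂ * c₁)) = 1) :
    el n01 c₂ * el n21 (-(c₁ * d₂)) * el n10 b₂ * blk a b₁ c₁ d₁ h₁ =
      blk02 a (b₁ * c₂) (-(b₂ * c₁)) (d₁ - b₁ * c₁ * d₂) h * el n12 b₁ *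
        blk10 a b₂ c₂ d₂ h₂ := by
  apply mt_inj
  simp only [mt_mul, mt_blk, mt_blk10, mt_blk02, mt01, mt10, mt12, mt21, Matrix.mul_fin_three]
  apply m3_ext
  · linear_combination (-1 : ℤ) * h₂
  · ring
  · ring
  · ring
  · ring
  · ring
  · ring
  · linear_combination (-c₁) * h₂
  · ring

/-! ### the symbol -/

section Symbol

variable {m : ℤ} {G : Type*} [Group G] (f : SLn 3 →* G)

theorem map_el_add {f : SLn 3 →* G} (hf : ∀ (i j : Fin 3) (h : i ≠ j), f (el h m) = 1)
    {i j : Fin 3} (h : i ≠ j) {c c' : ℤ} (hc : m ∣ c' - c) : f (el h c') = f (el h c) := by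
  have e : el h c' = el h c * el h (c' - c) := by rw [el_mul]; congr 1; ring
  rw [e, map_mul, map_el_of_dvd hf h hc, mul_one]

/-- the blocks are central -/
theorem comm_blk {f : SLn 3 →* G} (hf : ∀ (i j : Fin 3) (h : i ≠ j), f (el h m) = 1)
    {a b c d : ℤ} (h : a * d - b * c = 1) (ha : m ∣ a - 1) (hb : m ∣ b) (hc : m ∣ c)
    (hd : m ∣ d - 1) (i j : Fin 3) (hij : i ≠ j) (t : ℤ) :
    Commute (f (blk a b c d h)) (f (el hij t)) := by
  have c10 : ∀ t, Commute (f (blk a b c d h)) (f (el n10 t)) := by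
    intro t
    have h1 := congrArg f (blk_el10 a b c d h t)
    rw [map_mul, map_mul, map_mul, map_el_of_dvd hf n20 (Dvd.dvd.mul_left hc t), mul_one,
      map_el_add hf n10 (c := t) (c' := t * a) (by
        have : t * a - t = t * (a - 1) := by ring
        rw [this]; exact Dvd.dvd.mul_left ha t)] at h1
    exact h1
  have c20 : ∀ t, Commute (f (blk a b c d h)) (f (el n20 t)) := by
    intro t
    have h1 := congrArg f (blk_el20 a b c d h t)
    rw [map_mul, map_mul, map_mul, map_el_of_dvd hf n10 (Dvd.dvd.mul_left hb t), one_mul,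
      map_el_add hf n20 (c := t) (c' := t * d) (by
        have : t * d - t = t * (d - 1) := by ring
        rw [this]; exact Dvd.dvd.mul_left hd t)] at h1
    exact h1
  have c01 : ∀ t, Commute (f (blk a b c d h)) (f (el n01 t)) := by
    intro t
    have h1 := congrArg f (el01_blk a b c d h t)
    rw [map_mul, map_mul, map_mul, map_el_of_dvd hf n02 (Dvd.dvd.mul_left hb t), mul_one,
      map_el_add hf n01 (c := t) (c' := t * a) (by
        have : t * a - t = t * (a - 1) := by ring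
        rw [this]; exact Dvd.dvd.mul_left ha t)] at h1
    exact h1.symm
  have c02 : ∀ t, Commute (f (blk a b c d h)) (f (el n02 t)) := by
    intro t
    have h1 := congrArg f (el02_blk a b c d h t)
    rw [map_mul, map_mul, map_mul, map_el_of_dvd hf n01 (Dvd.dvd.mul_left hc t), one_mul,
      map_el_add hf n02 (c := t) (c' := t * d) (by
        have : t * d - t = t * (d - 1) := by ring
        rw [this]; exact Dvd.dvd.mul_left hd t)] at h1
    exact h1.symm
  have c12 : ∀ t, Commute (f (blk a b c d h)) (f (el n12 t)) := by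
    intro t
    rw [el12_eq, map_mul, map_mul, map_mul, map_inv, map_inv]
    exact (((c10 t).mul_right (c02 1)).mul_right (c10 t).inv_right).mul_right (c02 1).inv_right
  have c21 : ∀ t, Commute (f (blk a b c d h)) (f (el n21 t)) := by
    intro t
    rw [el21_eq, map_mul, map_mul, map_mul, map_inv, map_inv]
    exact (((c20 t).mul_right (c01 1)).mul_right (c20 t).inv_right).mul_right (c01 1).inv_right
  fin_cases i <;> fin_cases j
  · exact absurd rfl hij
  · exact c01 t
  · exact c02 t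
  · exact c10 t
  · exact absurd rfl hij
  · exact c12 t
  · exact c20 t
  · exact c21 t
  · exact absurd rfl hij

theorem comm_w1 {f : SLn 3 →* G} (hf : ∀ (i j : Fin 3) (h : i ≠ j), f (el h m) = 1)
    {a b c d : ℤ} (h : a * d - b * c = 1) (ha : m ∣ a - 1) (hb : m ∣ b) (hc : m ∣ c)
    (hd : m ∣ d - 1) : Commute (f (blk a b c d h)) (f w1) := by
  unfold w1
  rw [map_mul, map_mul]
  have := comm_blk hf h ha hb hc hd
  exact ((this _ _ n02 1).mul_right (this _ _ n20 (-1))).mul_right (this _ _ n02 1)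

theorem comm_w2 {f : SLn 3 →* G} (hf : ∀ (i j : Fin 3) (h : i ≠ j), f (el h m) = 1)
    {a b c d : ℤ} (h : a * d - b * c = 1) (ha : m ∣ a - 1) (hb : m ∣ b) (hc : m ∣ c)
    (hd : m ∣ d - 1) : Commute (f (blk a b c d h)) (f w2) := by
  unfold w2
  rw [map_mul, map_mul]
  have := comm_blk hf h ha hb hc hd
  exact ((this _ _ n01 1).mul_right (this _ _ n10 (-1))).mul_right (this _ _ n01 1)

theorem map_blk10 {f : SLn 3 →* G} (hf : ∀ (i j : Fin 3) (h : i ≠ j), f (el h m) = 1)
    {a b c d : ℤ} (h : a * d - b * c = 1) (ha : m ∣ a - 1) (hb : m ∣ b) (hc : m ∣ c)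
    (hd : m ∣ d - 1) : f (blk10 a b c d h) = f (blk a b c d h) := by
  have h1 := congrArg f (w1_blk a b c d h)
  rw [map_mul, map_mul, ← (comm_w1 hf h ha hb hc hd).eq] at h1
  exact (mul_right_cancel h1).symm

theorem map_blk02 {f : SLn 3 →* G} (hf : ∀ (i j : Fin 3) (h : i ≠ j), f (el h m) = 1)
    {a b c d : ℤ} (h : a * d - b * c = 1) (ha : m ∣ a - 1) (hb : m ∣ b) (hc : m ∣ c)
    (hd : m ∣ d - 1) : f (blk02 a b c d h) = f (blk a b c d h) := by
  have h1 := congrArg f (w2_blk a b c d h)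
  rw [map_mul, map_mul, ← (comm_w2 hf h ha hb hc hd).eq] at h1
  exact (mul_right_cancel h1).symm

open Classical in
/-- the symbol -/
noncomputable def sym (m : ℤ) (f : SLn 3 →* G) (a b : ℤ) : G :=
  if h : ∃ c d : ℤ, m ∣ c ∧ m ∣ d - 1 ∧ a * d - b * c = 1 then
    f (blk a b h.choose h.choose_spec.choose h.choose_spec.choose_spec.2.2) else 1

theorem map_blk_indep {f : SLn 3 →* G} (hf : ∀ (i j : Fin 3) (h : i ≠ j), f (el h m) = 1)
    {a b c d c' d' : ℤ} (h : a * d - b * c = 1) (h' : a * d' - b * c' = 1) (hc : m ∣ c)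
    (hc' : m ∣ c') : f (blk a b c' d' h') = f (blk a b c d h) := by
  rw [blk_inj a b c d c' d' h h', map_mul, map_el_of_dvd hf n21 (by
    exact dvd_sub (Dvd.dvd.mul_right hc' _) (Dvd.dvd.mul_left hc _)), one_mul]

theorem sym_eq {f : SLn 3 →* G} (hf : ∀ (i j : Fin 3) (h : i ≠ j), f (el h m) = 1)
    {a b c d : ℤ} (h : a * d - b * c = 1) (hc : m ∣ c) (hd : m ∣ d - 1) :
    sym m f a b = f (blk a b c d h) := by
  have hex : ∃ c d : ℤ, m ∣ c ∧ m ∣ d - 1 ∧ a * d - b * c = 1 := ⟨c, d, hc, hd, h⟩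
  unfold sym
  rw [dif_pos hex]
  exact map_blk_indep hf h hex.choose_spec.choose_spec.2.2 hc hex.choose_spec.choose_spec.1

/-- the symbol of `f` -/
noncomputable def msym {f : SLn 3 →* G} (hf : ∀ (i j : Fin 3) (h : i ≠ j), f (el h m) = 1) :
    MSym m G where
  s := sym m f
  h1 a b t hV ht := by
    obtain ⟨c, d, hc, hd, h⟩ := exists_row hV
    have h' : a * (d + t * c) - (b + t * a) * c = 1 := by linear_combination h
    rw [sym_eq hf h hc hd, sym_eq hf h' hc (by
      have : d + t * c - 1 = (d - 1) + t * c := by ring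
      rw [this]; exact dvd_add hd (Dvd.dvd.mul_left hc t)), blk_add a b c d t h h', map_mul,
      map_el_of_dvd hf n12 ht, mul_one]
  h2 a b t hV := by
    obtain ⟨c, d, hc, hd, h⟩ := exists_row hV
    have h' : (a + t * b) * (d - t * b) - b * (c + t * d - t * (a + t * b)) = 1 := by
      linear_combination h
    rw [sym_eq hf h hc hd, sym_eq hf h' (by
      have : c + t * d - t * (a + t * b) = c + t * (d - 1) - t * (a - 1) - t * t * b := by ring
      rw [this]
      exact dvd_sub (dvd_sub (dvd_add hc (Dvd.dvd.mul_left hd t)) (Dvd.dvd.mul_left hV.1 t))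
        (Dvd.dvd.mul_left hV.2.1 _)) (by
      have : d - t * b - 1 = (d - 1) - t * b := by ring
      rw [this]; exact dvd_sub hd (Dvd.dvd.mul_left hV.2.1 t)), blk_conj a b c d t h h', map_mul,
      map_mul, el_neg, map_inv, mul_assoc,
      (comm_blk hf h hV.1 hV.2.1 hc hd _ _ n21 t).eq, inv_mul_cancel_left]
  h3 a b hV := by
    obtain ⟨c, d, hc, hd, h⟩ := exists_row hV
    have h' : a * d - (-b) * (-c) = 1 := by linear_combination h
    rw [sym_eq hf h hc hd, sym_eq hf h' ((dvd_neg).mpr hc) hd]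
    have h1 := congrArg f (blk_neg a b c d h h')
    have h2 := comm_w1 hf h hV.1 hV.2.1 hc hd
    simp only [map_mul] at h1
    rw [← (h2.mul_right h2).eq] at h1
    exact (mul_right_cancel h1).symm
  h4 a b₁ b₂ c₂ d₂ hV₁ hV₂ hc₂ hd₂ h₂ := by
    obtain ⟨c₁, d₁, hc₁, hd₁, h₁⟩ := exists_row hV₁
    have h : a * (d₁ - b₁ * c₁ * d₂) - (b₁ * c₂) * (-(b₂ * c₁)) = 1 := by
      linear_combination h₁ - b₁ * c₁ * h₂
    have hm1 : m ∣ b₁ * c₂ := Dvd.dvd.mul_right hV₁.2.1 _
    have hm2 : m ∣ -(b₂ * c₁) := (Dvd.dvd.mul_right hV₂.2.1 _).neg_right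
    have hm3 : m ∣ d₁ - b₁ * c₁ * d₂ - 1 := by
      have : d₁ - b₁ * c₁ * d₂ - 1 = (d₁ - 1) - b₁ * (c₁ * d₂) := by ring
      rw [this]; exact dvd_sub hd₁ (Dvd.dvd.mul_right hV₁.2.1 _)
    rw [sym_eq hf h₁ hc₁ hd₁, sym_eq hf h₂ hc₂ hd₂, sym_eq hf h hm2 hm3]
    have h1 := congrArg f (mul_right_id a b₁ c₁ d₁ b₂ c₂ d₂ h₁ h₂ h)
    simp only [map_mul] at h1
    rw [map_el_of_dvd hf n01 hc₂, map_el_of_dvd hf n21 ((Dvd.dvd.mul_right hc₁ _).neg_right),
      map_el_of_dvd hf n10 hV₂.2.1, map_el_of_dvd hf n12 hV₁.2.1, one_mul, one_mul, one_mul,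
      mul_one, map_blk02 hf h hV₁.1 hm1 hm2 hm3, map_blk10 hf h₂ hV₂.1 hV₂.2.1 hc₂ hd₂] at h1
    rw [h1, mul_inv_cancel_right]
  h6 hm2 := by
    have h : (-1 : ℤ) * (-1) - 0 * 0 = 1 := by ring
    rw [sym_eq hf h (dvd_zero m) (by
      have : (-1 : ℤ) - 1 = -2 := by norm_num
      rw [this]; exact hm2.neg_right)]
    have e : blk (-1) 0 0 (-1) h =
        (el n12 1 * el n21 (-1) * el n12 1) * (el n12 1 * el n21 (-1) * el n12 1) := by
      apply mt_inj
      simp only [mt_mul, mt_blk, mt12, mt21, Matrix.mul_fin_three]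
      apply m3_ext <;> norm_num
    have e2 : f (el n12 1 * el n21 (-1) * el n12 1) = (f (el n12 1 * el n21 (-1) * el n12 1))⁻¹ := by
      have a1 : f (el n12 (-1)) = f (el n12 1) := map_el_add hf n12 (by
        have : (-1 : ℤ) - 1 = -2 := by norm_num
        rw [this]; exact hm2.neg_right)
      have a2 : f (el n21 (-1)) = f (el n21 1) := map_el_add hf n21 (by
        have : (-1 : ℤ) - 1 = -2 := by norm_num
        rw [this]; exact hm2.neg_right)
      have a3 : (el n12 1 * el n21 (-1) * el n12 1 : SLn 3)⁻¹ =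
          el n12 (-1) * el n21 1 * el n12 (-1) := by
        rw [mul_inv_rev, mul_inv_rev, el_neg, el_neg, inv_inv, mul_assoc]
      rw [← map_inv, a3]
      simp only [map_mul]
      rw [a1, a2]
    rw [e, map_mul]
    nth_rewrite 1 [e2]
    rw [inv_mul_cancel]

/-- **the congruence subgroup theorem for the blocks** -/
theorem sl_two (hm : 2 ≤ m)
    (f : SLn 3 →* G) (hf : ∀ (i j : Fin 3) (h : i ≠ j), f (el h m) = 1) (A : SLn 2)
    (hA : CongOne m A) : f (inl A) = 1 := by
  have hdet : mt A 0 0 * mt A 1 1 - mt A 0 1 * mt A 1 0 = 1 := by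
    have := det_mt A
    rwa [Matrix.det_fin_two] at this
  have e : inl A = blk (mt A 0 0) (mt A 0 1) (mt A 1 0) (mt A 1 1) hdet := by
    apply mt_inj
    rw [mt_blk, mt_inl]
    ext i j
    fin_cases i <;> fin_cases j <;> rfl
  have h00 : m ∣ mt A 0 0 - 1 := by simpa using hA 0 0
  have h01 : m ∣ mt A 0 1 := by simpa using hA 0 1
  have h10 : m ∣ mt A 1 0 := by simpa using hA 1 0
  have h11 : m ∣ mt A 1 1 - 1 := by simpa using hA 1 1
  rw [e, ← sym_eq hf hdet h10 h11]
  refine (msym hf).s_eq_one hm ⟨h00, h01, ?_⟩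
  exact ⟨mt A 1 1, -(mt A 1 0), by linear_combination hdet⟩

end Symbol

end Pool.Agent.CSP4
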