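import Pool.Agent.CSP4.SLBase

/-!
# `SL_n(ℤ)` is generated by the elementary matrices
-/

set_option autoImplicit false

namespace Pool.Agent.CSP4

variable {n : ℕ}

/-- the group generated by the elementary matrices -/
def El (n : ℕ) : Subgroup (SLn n) :=
  Subgroup.closure {A | ∃ (i j : Fin n) (h : i ≠ j), A = el h 1}

theorem el_mem_El {i j : Fin n} (h : i ≠ j) (c : ℤ) : (el h c : SLn n) ∈ El n := by
  have e : (el h c : SLn n) = el h 1 ^ c := by rw [el_zpow, mul_one]
  have h1 : (el h 1 : SLn n) ∈ El n := Subgroup.subset_closure ⟨i, j, h, rfl⟩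
  rw [e]
  exact Subgroup.zpow_mem _ h1 c

/-- the action of an elementary matrix on a column -/
theorem el_mulVec {i j : Fin n} (h : i ≠ j) (c : ℤ) (v : Fin n → ℤ) (k : Fin n) :
    (mt (el h c)).mulVec v k = v k + if k = i then c * v j else 0 := by
  rw [mt_el, Matrix.transvection, Matrix.add_mulVec, Matrix.one_mulVec, Pi.add_apply]
  congr 1
  rw [Matrix.mulVec, dotProduct, Finset.sum_eq_single j]
  · rw [Matrix.single_apply]
    by_cases hk : k = i
    · subst hk; simp
    · rw [if_neg hk, if_neg (by rintro ⟨a, b⟩; exact hk a.symm), zero_mul]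
  · intro b _ hb
    rw [Matrix.single_apply, if_neg (by rintro ⟨_, e⟩; exact hb e.symm), zero_mul]
  · intro h'; exact absurd (Finset.mem_univ j) h'

/-- no common divisor -/
def Uni (v : Fin n → ℤ) : Prop := ∀ d : ℤ, (∀ k, d ∣ v k) → d ∣ 1

theorem Uni.el {v : Fin n → ℤ} (hv : Uni v) {i j : Fin n} (h : i ≠ j) (c : ℤ) :
    Uni ((mt (el h c)).mulVec v) := by
  intro d hd
  refine hv d (fun k => ?_)
  have hj : d ∣ v j := by
    have := hd j
    rw [el_mulVec, if_neg (Ne.symm h), add_zero] at this
    exact this
  have hk := hd k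
  rw [el_mulVec] at hk
  split_ifs at hk with e
  · exact (dvd_add_left (Dvd.dvd.mul_left hj c)).mp hk
  · rwa [add_zero] at hk

theorem uni_col (A : SLn n) (j : Fin n) : Uni (fun k => mt A k j) := by
  intro d hd
  have e : mt (A⁻¹ * A) j j = 1 := by rw [inv_mul_cancel, mt_one, Matrix.one_apply_eq]
  rw [mt_mul, Matrix.mul_apply] at e
  rw [← e]
  exact Finset.dvd_sum (fun k _ => Dvd.dvd.mul_left (hd k) _)

/-- reduction of a column to the first basis vector -/
theorem col_red : ∀ (N : ℕ) (v : Fin (n + 2) → ℤ), Uni v → ∑ k, (v k).natAbs ≤ N →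
    ∃ E ∈ El (n + 2), (mt E).mulVec v = Pi.single 0 1 := by
  intro N
  induction N with
  | zero =>
    intro v hv hN
    exfalso
    have h0 : ∀ k, v k = 0 := fun k => by
      have : (v k).natAbs ≤ ∑ k, (v k).natAbs :=
        Finset.single_le_sum (f := fun k => (v k).natAbs) (fun _ _ => Nat.zero_le _)
          (Finset.mem_univ k)
      exact Int.natAbs_eq_zero.mp (by omega)
    have := hv 0 (fun k => by rw [h0 k])
    exact absurd (zero_dvd_iff.mp this) one_ne_zero
  | succ N ih =>
    intro v hv hN
    -- a general step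
    have step : ∀ (i j : Fin (n + 2)) (_ : i ≠ j) (c : ℤ), (v i + c * v j).natAbs < (v i).natAbs →
        ∃ E ∈ El (n + 2), (mt E).mulVec v = Pi.single 0 1 := by
      intro i j h c hlt
      have h1 : ∑ k, ((mt (el h c)).mulVec v k).natAbs < ∑ k, (v k).natAbs := by
        refine Finset.sum_lt_sum (fun k _ => ?_) ⟨i, Finset.mem_univ i, ?_⟩
        · rw [el_mulVec]
          split_ifs with e
          · subst e; exact hlt.le
          · rw [add_zero]
        · rw [el_mulVec, if_pos rfl]; exact hlt
      obtain ⟨E, hE, e⟩ := ih _ (hv.el h c) (by omega)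
      refine ⟨E * el h c, Subgroup.mul_mem _ hE (el_mem_El h c), ?_⟩
      rw [mt_mul, ← Matrix.mulVec_mulVec, e]
    by_cases hex : ∃ i j : Fin (n + 2), i ≠ j ∧ v i ≠ 0 ∧ v j ≠ 0
    · obtain ⟨i, j, hij, hi, hj⟩ := hex
      rcases le_total (v j).natAbs (v i).natAbs with hle | hle
      · by_cases hs : 0 < v i * v j
        · refine step i j hij (-1) ?_
          rcases lt_or_gt_of_ne hi with a | a <;> rcases lt_or_gt_of_ne hj with b | b
          · omega
          · exact absurd (mul_neg_of_neg_of_pos a b) (not_lt.mpr hs.le)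
          · exact absurd (mul_neg_of_pos_of_neg a b) (not_lt.mpr hs.le)
          · omega
        · refine step i j hij 1 ?_
          rcases lt_or_gt_of_ne hi with a | a <;> rcases lt_or_gt_of_ne hj with b | b
          · exact absurd (mul_pos_of_neg_of_neg a b) hs
          · omega
          · omega
          · exact absurd (mul_pos a b) hs
      · by_cases hs : 0 < v i * v j
        · refine step j i hij.symm (-1) ?_
          rcases lt_or_gt_of_ne hi with a | a <;> rcases lt_or_gt_of_ne hj with b | b
          · omega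
          · exact absurd (mul_neg_of_neg_of_pos a b) (not_lt.mpr hs.le)
          · exact absurd (mul_neg_of_pos_of_neg a b) (not_lt.mpr hs.le)
          · omega
        · refine step j i hij.symm 1 ?_
          rcases lt_or_gt_of_ne hi with a | a <;> rcases lt_or_gt_of_ne hj with b | b
          · exact absurd (mul_pos_of_neg_of_neg a b) hs
          · omega
          · omega
          · exact absurd (mul_pos a b) hs
    · push_neg at hex
      -- only one entry is not zero
      have hne : ∃ i, v i ≠ 0 := by
        by_contra hc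
        push_neg at hc
        have := hv 0 (fun k => by rw [hc k])
        exact absurd (zero_dvd_iff.mp this) one_ne_zero
      obtain ⟨i, hi⟩ := hne
      have hz : ∀ k, k ≠ i → v k = 0 := fun k hk => by
        by_contra hc
        exact hk (by_contra fun h => hi (hex k i h hc))
      have hu : v i = 1 ∨ v i = -1 := by
        have := hv (v i) (fun k => by
          by_cases hk : k = i
          · rw [hk]
          · rw [hz k hk]; exact dvd_zero _)
        exact Int.isUnit_iff.mp (isUnit_of_dvd_one this)
      -- from an entry at a place different from `0`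
      have fin : ∀ (w : Fin (n + 2) → ℤ) (j : Fin (n + 2)) (_ : j ≠ 0),
          (∀ k, k ≠ j → w k = 0) → (w j = 1 ∨ w j = -1) →
          ∃ E ∈ El (n + 2), (mt E).mulVec w = Pi.single 0 1 := by
        intro w j hj hw hwj
        refine ⟨el hj (-(w j)) * el (Ne.symm hj) (w j), Subgroup.mul_mem _ (el_mem_El _ _)
          (el_mem_El _ _), ?_⟩
        have hsq : w j * w j = 1 := by rcases hwj with e | e <;> rw [e] <;> norm_num
        ext k
        rw [mt_mul, ← Matrix.mulVec_mulVec, el_mulVec, el_mulVec, el_mulVec]
        have hw0 : w 0 = 0 := hw 0 (Ne.symm hj)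
        by_cases hk0 : k = 0
        · subst hk0
          rw [if_pos rfl, if_neg (Ne.symm hj), Pi.single_eq_same, hw0, hsq]
          ring
        · rw [if_neg hk0, Pi.single_eq_of_ne hk0]
          by_cases hkj : k = j
          · subst hkj
            rw [if_pos rfl, if_pos rfl, hw0, hsq]
            ring
          · rw [if_neg hkj, hw k hkj]
            ring
      by_cases hi0 : i = 0
      · subst hi0
        rcases hu with h1 | h1
        · refine ⟨1, Subgroup.one_mem _, ?_⟩
          rw [mt_one, Matrix.one_mulVec]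
          ext k
          by_cases hk : k = 0
          · subst hk; rw [h1, Pi.single_eq_same]
          · rw [hz k hk, Pi.single_eq_of_ne hk]
        · have h10 : (1 : Fin (n + 2)) ≠ 0 := by
            intro e
            exact absurd (congrArg Fin.val e) (by simp)
          obtain ⟨E, hE, e⟩ := fin ((mt (el (Ne.symm h10) 1 * el h10 (-1))).mulVec v) 1 h10
            (fun k hk => by
              rw [mt_mul, ← Matrix.mulVec_mulVec, el_mulVec, el_mulVec, el_mulVec]
              by_cases hk0 : k = 0
              · subst hk0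
                rw [if_neg (Ne.symm h10), if_pos rfl, if_pos rfl, hz 1 h10, h1]
                norm_num
              · rw [if_neg hk, if_neg hk0, hz k hk0]
                norm_num)
            (by
              left
              rw [mt_mul, ← Matrix.mulVec_mulVec, el_mulVec, el_mulVec, if_pos rfl, if_neg h10,
                hz 1 h10, h1]
              norm_num)
          refine ⟨E * (el (Ne.symm h10) 1 * el h10 (-1)), Subgroup.mul_mem _ hE
            (Subgroup.mul_mem _ (el_mem_El _ _) (el_mem_El _ _)), ?_⟩
          rw [mt_mul, ← Matrix.mulVec_mulVec, e]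
      · exact fin v i hi0 hz hu

theorem mul_el_apply (B : SLn n) {i j : Fin n} (h : i ≠ j) (c : ℤ) (a b : Fin n) :
    mt (B * el h c) a b = mt B a b + if b = j then c * mt B a i else 0 := by
  rw [mt_mul, mt_el, Matrix.transvection, mul_add, mul_one, Matrix.add_apply]
  congr 1
  rw [Matrix.mul_apply, Finset.sum_eq_single i]
  · rw [Matrix.single_apply]
    by_cases hb : b = j
    · subst hb; simp [mul_comm]
    · rw [if_neg hb, if_neg (by rintro ⟨_, e⟩; exact hb e.symm), mul_zero]
  · intro k _ hk
    rw [Matrix.single_apply, if_neg (by rintro ⟨e, _⟩; exact hk e.symm), mul_zero]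
  · intro h'; exact absurd (Finset.mem_univ i) h'

theorem row_red (B : SLn (n + 1))
    (hB : ∀ a, mt B a 0 = (1 : Matrix (Fin (n + 1)) (Fin (n + 1)) ℤ) a 0)
    (s : Finset (Fin n)) : ∃ F ∈ El (n + 1),
      (∀ a, mt (B * F) a 0 = (1 : Matrix (Fin (n + 1)) (Fin (n + 1)) ℤ) a 0) ∧
      ∀ j ∈ s, mt (B * F) 0 j.succ = 0 := by
  induction s using Finset.induction_on with
  | empty => exact ⟨1, Subgroup.one_mem _, by rwa [mul_one], by simp⟩
  | insert j s hj ih =>
    obtain ⟨F, hF, h1, h2⟩ := ih
    have h0 : (0 : Fin (n + 1)) ≠ j.succ := (Fin.succ_ne_zero j).symm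
    refine ⟨F * el h0 (-(mt (B * F) 0 j.succ)), Subgroup.mul_mem _ hF (el_mem_El _ _),
      fun a => ?_, fun k hk => ?_⟩
    · rw [← mul_assoc, mul_el_apply, if_neg h0, add_zero, h1]
    · rw [← mul_assoc, mul_el_apply, h1 0, Matrix.one_apply_eq]
      rcases Finset.mem_insert.mp hk with rfl | hk
      · rw [if_pos rfl]; ring
      · rw [if_neg (fun e => hj (by rw [← Fin.succ_injective _ e]; exact hk)), h2 k hk, add_zero]

theorem inl_mem_El {A : SLn n} (hA : A ∈ El n) : inl A ∈ El (n + 1) := by
  unfold El at hA
  induction hA using Subgroup.closure_induction with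
  | mem A h =>
    obtain ⟨i, j, hij, rfl⟩ := h
    rw [inl_el]
    exact el_mem_El _ _
  | one => rw [map_one]; exact Subgroup.one_mem _
  | mul A B _ _ ha hb => rw [map_mul]; exact Subgroup.mul_mem _ ha hb
  | inv A _ ha => rw [map_inv]; exact Subgroup.inv_mem _ ha

theorem sl_one_eq (A : SLn 1) : A = 1 := by
  apply mt_inj
  have h := det_mt A
  rw [Matrix.det_fin_one] at h
  ext i j
  rw [Subsingleton.elim i 0, Subsingleton.elim j 0, h, mt_one, Matrix.one_apply_eq]

theorem mem_El_succ : ∀ (n : ℕ) (A : SLn (n + 1)), A ∈ El (n + 1) := by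
  intro n
  induction n with
  | zero => intro A; rw [sl_one_eq A]; exact Subgroup.one_mem _
  | succ n ih =>
    intro A
    obtain ⟨E, hE, e⟩ := col_red _ _ (uni_col A 0) le_rfl
    have hcol : ∀ a, mt (E * A) a 0 =
        (1 : Matrix (Fin (n + 1 + 1)) (Fin (n + 1 + 1)) ℤ) a 0 := by
      intro a
      have := congrFun e a
      rw [mt_mul, Matrix.mul_apply]
      rw [Matrix.mulVec, dotProduct] at this
      rw [this, Matrix.one_apply, Pi.single_apply]
    obtain ⟨F, hF, h1, h2⟩ := row_red (E * A) hcol Finset.univ
    set B := E * A * F with hBdef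
    let A'm : Matrix (Fin (n + 1)) (Fin (n + 1)) ℤ := fun a b => mt B a.succ b.succ
    have hBm : mt B = inlM A'm := by
      ext a b
      refine Fin.cases ?_ (fun b' => ?_) b
      · rw [h1]
        refine Fin.cases ?_ (fun a' => ?_) a
        · rw [inlM_zero_zero, Matrix.one_apply_eq]
        · rw [inlM_succ_zero, Matrix.one_apply_ne (Fin.succ_ne_zero a')]
      · refine Fin.cases ?_ (fun a' => ?_) a
        · rw [h2 b' (Finset.mem_univ _), inlM_zero_succ]
        · rfl
    have hdet : A'm.det = 1 := by rw [← det_inlM, ← hBm, det_mt]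
    let A' : SLn (n + 1) := ⟨A'm, hdet⟩
    have hB : B = inl A' := mt_inj (by rw [hBm]; rfl)
    have hBm' : B ∈ El (n + 2) := by rw [hB]; exact inl_mem_El (ih A')
    have : A = E⁻¹ * B * F⁻¹ := by rw [hBdef]; group
    rw [this]
    exact Subgroup.mul_mem _ (Subgroup.mul_mem _ (Subgroup.inv_mem _ hE) hBm')
      (Subgroup.inv_mem _ hF)

/-- **`SL_n(ℤ)` is generated by the elementary matrices** -/
theorem El_eq_top (n : ℕ) : El n = ⊤ := by
  rw [eq_top_iff]
  intro A _
  cases n with
  | zero =>
    have : A = 1 := mt_inj (Matrix.ext fun i => i.elim0)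
    rw [this]; exact Subgroup.one_mem _
  | succ n => exact mem_El_succ n A

end Pool.Agent.CSP4
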