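import Pool.Agent.CSP3.Magnus
import Pool.Agent.CSP4.Assembly
import Pool.Agent.CSP4.SLGen

/-!
# From `SL_n(ℤ)` to automorphisms of the free group

If a congruence subgroup of `SL_n(ℤ)` lies in every normal subgroup which contains the `m`-th powers
of the elementary matrices, then every automorphism `psi` of `F_n` which acts trivially on
`H_1(F_n; ℤ/M)` lies in `N * J1 n`, for every normal subgroup `N` of `Aut(F_n)` which contains the
`m`-th powers of the transvections.
-/

set_option autoImplicit false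

namespace Pool.Agent.CSP4

open Pool.Agent.CSP3 Matrix

variable {n : ℕ}

/-- the matrix of the action on the homology -/
noncomputable def rm (n : ℕ) : A n →* Matrix (Fin n) (Fin n) ℤ where
  toFun ψ := LinearMap.toMatrixAlgEquiv' (Mag.rz n ψ)
  map_one' := by rw [map_one, map_one]
  map_mul' φ ψ := by rw [map_mul, map_mul]

theorem rm_apply (ψ : A n) (i j : Fin n) :
    rm n ψ i j = Multiplicative.toAdd (abz n (ψ (x j))) i := by
  show LinearMap.toMatrixAlgEquiv' (Mag.rz n ψ) i j = _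
  rw [LinearMap.toMatrixAlgEquiv'_apply, ← Mag.rz_single]

theorem rm_R {i j : Fin n} (h : i ≠ j) : rm n (R j (x i)) = mt (el h 1) := by
  ext a b
  rw [rm_apply, ← Mag.rz_single, Mag.rz_R h, mt_el, Matrix.transvection, Matrix.add_apply,
    Pi.add_apply, Matrix.one_apply, Matrix.single_apply, Pi.single_apply, Pi.single_apply,
    Pi.single_apply]
  congr 1
  by_cases ha : a = i
  · by_cases hb : b = j
    · rw [if_pos ha, if_pos hb.symm, if_pos ⟨ha.symm, hb.symm⟩]
    · rw [if_pos ha, if_neg (fun e => hb e.symm), if_neg (fun e => hb e.2.symm)]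
  · rw [if_neg ha, if_neg (fun e => ha e.1.symm)]

theorem mt_pow (B : SLn n) (k : ℕ) : mt (B ^ k) = mt B ^ k := by
  induction k with
  | zero => rw [pow_zero, pow_zero, mt_one]
  | succ k ih => rw [pow_succ, pow_succ, mt_mul, ih]

theorem rm_R_pow {i j : Fin n} (h : i ≠ j) (m : ℕ) : rm n (R j (x i) ^ m) = mt (el h (m : ℤ)) := by
  have e : (el h (m : ℤ) : SLn n) = el h 1 ^ m := by
    rw [← zpow_natCast, el_zpow, mul_one]
  rw [map_pow, rm_R h, e, mt_pow]

/-- every matrix of determinant one comes from an automorphism -/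
theorem exists_aut (B : SLn n) : ∃ β : A n, rm n β = mt B := by
  have hB : B ∈ El n := by rw [El_eq_top]; trivial
  unfold El at hB
  induction hB using Subgroup.closure_induction with
  | mem B h =>
    obtain ⟨i, j, hij, rfl⟩ := h
    exact ⟨R j (x i), rm_R hij⟩
  | one => exact ⟨1, by rw [map_one, mt_one]⟩
  | mul a b _ _ ha hb =>
    obtain ⟨α, ha⟩ := ha
    obtain ⟨β, hb⟩ := hb
    exact ⟨α * β, by rw [map_mul, ha, hb, mt_mul]⟩
  | inv a _ ha =>
    obtain ⟨α, ha⟩ := ha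
    refine ⟨α⁻¹, ?_⟩
    have h1 : rm n α⁻¹ * mt a = 1 := by rw [← ha, ← map_mul, inv_mul_cancel, map_one]
    have h2 : mt a * mt a⁻¹ = 1 := by rw [← mt_mul, mul_inv_cancel, mt_one]
    calc rm n α⁻¹ = rm n α⁻¹ * (mt a * mt a⁻¹) := by rw [h2, mul_one]
      _ = mt a⁻¹ := by rw [← mul_assoc, h1, one_mul]

/-- the matrices of the elements of `N` -/
def Nb (N : Subgroup (A n)) : Subgroup (SLn n) where
  carrier := {B | ∃ ν ∈ N, rm n ν = mt B}
  one_mem' := ⟨1, N.one_mem, by rw [map_one, mt_one]⟩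
  mul_mem' := by
    rintro a b ⟨α, ha, ea⟩ ⟨β, hb, eb⟩
    exact ⟨α * β, N.mul_mem ha hb, by rw [map_mul, ea, eb, mt_mul]⟩
  inv_mem' := by
    rintro a ⟨α, ha, ea⟩
    refine ⟨α⁻¹, N.inv_mem ha, ?_⟩
    have h1 : rm n α⁻¹ * mt a = 1 := by rw [← ea, ← map_mul, inv_mul_cancel, map_one]
    have h2 : mt a * mt a⁻¹ = 1 := by rw [← mt_mul, mul_inv_cancel, mt_one]
    calc rm n α⁻¹ = rm n α⁻¹ * (mt a * mt a⁻¹) := by rw [h2, mul_one]
      _ = mt a⁻¹ := by rw [← mul_assoc, h1, one_mul]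

theorem mem_Nb {N : Subgroup (A n)} {B : SLn n} : B ∈ Nb N ↔ ∃ ν ∈ N, rm n ν = mt B := Iff.rfl

instance (N : Subgroup (A n)) [N.Normal] : (Nb N).Normal where
  conj_mem := by
    rintro a ⟨α, ha, ea⟩ g
    obtain ⟨γ, eg⟩ := exists_aut g
    obtain ⟨γ', eg'⟩ := exists_aut g⁻¹
    refine ⟨γ * α * γ⁻¹, ‹N.Normal›.conj_mem α ha γ, ?_⟩
    have h1 : rm n γ⁻¹ * mt g = 1 := by rw [← eg, ← map_mul, inv_mul_cancel, map_one]
    have h2 : mt g * mt g⁻¹ = 1 := by rw [← mt_mul, mul_inv_cancel, mt_one]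
    have h3 : rm n γ⁻¹ = mt g⁻¹ := by
      calc rm n γ⁻¹ = rm n γ⁻¹ * (mt g * mt g⁻¹) := by rw [h2, mul_one]
        _ = mt g⁻¹ := by rw [← mul_assoc, h1, one_mul]
    rw [map_mul, map_mul, h3, ea, eg, mt_mul, mt_mul]

/-- the kernel of the action on the homology is `J1 n` (Magnus) -/
theorem mem_J1_of_rm {ψ : A n} (h : rm n ψ = 1) : ψ ∈ J1 n := by
  refine magnus (fun k => ?_)
  apply Multiplicative.toAdd.injective
  ext i
  rw [← rm_apply, h, abz_x, Matrix.one_apply, Pi.single_apply]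

/-- **transfer**: `psi` trivial on `H_1(F_n; ℤ/M)` lies in `N * J1 n` -/
theorem transfer {m : ℕ} {M : ℤ} (hM : 3 ≤ M)
    (csp : ∀ (P : Subgroup (SLn n)) [P.Normal],
      (∀ (i j : Fin n) (h : i ≠ j), el h (m : ℤ) ∈ P) → ∀ B : SLn n, CongOne M B → B ∈ P)
    (N : Subgroup (A n)) [N.Normal]
    (hN : ∀ i j : Fin n, i ≠ j → R j (x i) ^ m ∈ N) {ψ : A n}
    (h : ∀ i j : Fin n, M ∣ Multiplicative.toAdd (abz n (ψ (x j))) i -
      (1 : Matrix (Fin n) (Fin n) ℤ) i j) : ∃ ν ∈ N, ν⁻¹ * ψ ∈ J1 n := by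
  -- the determinant is `1`
  have hdet : (rm n ψ).det = 1 := by
    have h1 : (rm n ψ).det * (rm n ψ⁻¹).det = 1 := by
      rw [← Matrix.det_mul, ← map_mul, mul_inv_cancel, map_one, Matrix.det_one]
    have h2 : (rm n ψ).det = 1 ∨ (rm n ψ).det = -1 :=
      Int.isUnit_iff.mp (IsUnit.of_mul_eq_one _ h1)
    have hmap : (rm n ψ).map (Int.castRingHom (ZMod M.natAbs)) = 1 := by
      ext i j
      have h3 := h i j
      rw [← rm_apply, ← Int.natAbs_dvd, ← ZMod.intCast_zmod_eq_zero_iff_dvd, Int.cast_sub,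
        sub_eq_zero] at h3
      rw [Matrix.map_apply]
      show ((rm n ψ i j : ℤ) : ZMod M.natAbs) = _
      rw [h3, Matrix.one_apply, Matrix.one_apply]
      split_ifs <;> simp
    have h4 : ((rm n ψ).det : ZMod M.natAbs) = 1 := by
      have := Int.cast_det (R := ZMod M.natAbs) (rm n ψ)
      rw [this]
      have e : (rm n ψ).map (fun z : ℤ => (z : ZMod M.natAbs)) = 1 := hmap
      first
        | rw [e, Matrix.det_one]
        | (show (((rm n ψ).map (fun z : ℤ => (z : ZMod M.natAbs))).det) = 1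
           rw [e, Matrix.det_one])
    rcases h2 with h2 | h2
    · exact h2
    · exfalso
      rw [h2] at h4
      have h5 : ((2 : ℤ) : ZMod M.natAbs) = 0 := by
        have : ((2 : ℤ) : ZMod M.natAbs) = 1 - ((-1 : ℤ) : ZMod M.natAbs) := by
          push_cast; ring
        rw [this, h4, sub_self]
      rw [ZMod.intCast_zmod_eq_zero_iff_dvd, Int.natAbs_dvd] at h5
      have := Int.le_of_dvd (by norm_num) h5
      omega
  let B : SLn n := ⟨rm n ψ, hdet⟩
  have hB : CongOne M B := fun i j => by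
    have := h i j
    rw [← rm_apply] at this
    exact this
  have h6 : B ∈ Nb N := csp (Nb N) (fun i j hij => ⟨R j (x i) ^ m, hN i j hij, rm_R_pow hij m⟩) B hB
  obtain ⟨ν, hν, e⟩ := h6
  refine ⟨ν, hν, mem_J1_of_rm ?_⟩
  have e' : rm n ν = rm n ψ := e
  rw [map_mul, ← e', ← map_mul, inv_mul_cancel, map_one]

/-- the congruence subgroup theorem for `SL_n(ℤ)`: the matrices congruent to `1` modulo some `M`
lie in every normal subgroup which contains the elementary matrices with entry `m` -/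
def Csp (n m : ℕ) : Prop := ∃ M : ℕ, 0 < M ∧ ∀ P : Subgroup (SLn n), P.Normal →
  (∀ (i j : Fin n) (h : i ≠ j), el h (m : ℤ) ∈ P) → ∀ B : SLn n, CongOne (M : ℤ) B → B ∈ P

/-- exponent sums modulo `p` and exponent sums -/
theorem ab_abz (p : ℕ) (w : F n) (i : Fin n) :
    Multiplicative.toAdd (CSP3.ab p w) i = ((Multiplicative.toAdd (abz n w) i : ℤ) : ZMod p) := by
  induction w using FreeGroup.induction_on with
  | C1 => simp
  | of k => simp [CSP3.ab, abz, Pi.single_apply]
  | inv_of k hk =>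
    rw [map_inv (CSP3.ab p), map_inv (abz n), toAdd_inv, toAdd_inv, Pi.neg_apply, Pi.neg_apply, hk,
      Int.cast_neg]
  | mul u v hu hv =>
    rw [map_mul (CSP3.ab p), map_mul (abz n), toAdd_mul, toAdd_mul, Pi.add_apply, Pi.add_apply, hu,
      hv, Int.cast_add]

/-- the transfer in terms of the two named statements -/
theorem transfer_of_csp {m : ℕ} (h : Csp n m) : Transfer n m := by
  obtain ⟨M, hM, hc⟩ := h
  refine ⟨3 * M, by omega, fun N hN hR ψ hψ => ?_⟩
  have hN' := hN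
  obtain ⟨ν, hν, hJ⟩ := transfer (m := m) (M := ((3 * M : ℕ) : ℤ)) (by omega)
    (fun P hP hel B hB => hc P hP hel B (hB.mono (by
      rw [Nat.cast_mul]; exact Dvd.intro_left _ rfl))) N
    (fun i j hij => hR j i (Ne.symm hij)) (ψ := ψ) (fun i j => by
      have h1 : Multiplicative.toAdd (CSP3.ab (3 * M) (ψ (x j))) i =
        Multiplicative.toAdd (CSP3.ab (3 * M) (x j)) i := by rw [hψ (x j)]
      rw [ab_abz, ab_abz, abz_x] at h1
      rw [← ZMod.intCast_zmod_eq_zero_iff_dvd, Int.cast_sub, sub_eq_zero, h1, Matrix.one_apply,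
        Pi.single_apply])
  have : ψ = ν * (ν⁻¹ * ψ) := by group
  rw [this]
  exact Subgroup.mul_mem_sup hν hJ

end Pool.Agent.CSP4
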