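import Pool.Agent.CSP4.SLRed
import Pool.Agent.CSP4.SLSym
import Pool.Agent.CSP4.Transfer

/-!
# The congruence subgroup theorem for `SL_n(ℤ)`, `n ≥ 3`, and the transfer to `Aut(F_n)`

The level is sharp: a normal subgroup of `SL_n(ℤ)` which contains the elementary matrices with
entry `m` contains all matrices congruent to `1` modulo `m`.
-/

set_option autoImplicit false

namespace Pool.Agent.CSP4

open Pool.Agent.CSP3

/-- a homomorphism of `SL_{k+3}(ℤ)` which kills the elementary matrices with entry `m` kills all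
matrices congruent to `1` modulo `m` -/
theorem csp_map (k : ℕ) : ∀ {G : Type} [Group G] {m : ℤ} (_ : 2 ≤ m)
    (f : SLn (k + 3) →* G) (_ : ∀ (i j : Fin (k + 3)) (h : i ≠ j), f (el h m) = 1)
    (A : SLn (k + 3)) (_ : CongOne m A), f A = 1 := by
  induction k with
  | zero =>
    intro G _ m hm f hf A hA
    obtain ⟨A', hA', g, e⟩ := red (n := 2) le_rfl hm f hf A hA
    rw [e, sl_two hm f hf A' hA', mul_one, mul_inv_cancel]
  | succ k ih =>
    intro G _ m hm f hf A hA
    obtain ⟨A', hA', g, e⟩ := red (n := k + 3) (by omega) hm f hf A hA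
    have h1 : (f.comp inl) A' = 1 := ih hm (f.comp inl) (fun i j h => by
      rw [MonoidHom.comp_apply, inl_el]
      exact hf _ _ _) A' hA'
    rw [MonoidHom.comp_apply] at h1
    rw [e, h1, mul_one, mul_inv_cancel]

/-- **the congruence subgroup theorem for `SL_n(ℤ)`, `n ≥ 3`**, with the sharp level `m` -/
theorem csp_sharp {n m : ℕ} (hn : 3 ≤ n) (hm : 2 ≤ m) (P : Subgroup (SLn n)) [P.Normal]
    (hel : ∀ (i j : Fin n) (h : i ≠ j), el h (m : ℤ) ∈ P) (B : SLn n)
    (hB : CongOne (m : ℤ) B) : B ∈ P := by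
  obtain ⟨k, rfl⟩ : ∃ k, n = k + 3 := ⟨n - 3, by omega⟩
  rw [← QuotientGroup.eq_one_iff]
  exact csp_map k (m := (m : ℤ)) (by exact_mod_cast hm) (QuotientGroup.mk' P)
    (fun i j hij => (QuotientGroup.eq_one_iff _).mpr (hel i j hij)) B hB

/-- the congruence subgroup theorem for `SL_n(ℤ)`, `n ≥ 3`, for every `m` -/
theorem csp {n m : ℕ} (hn : 3 ≤ n) (hm : 0 < m) : Csp n m := by
  refine ⟨2 * m, by omega, fun P hP hel B hB => ?_⟩
  refine csp_sharp hn (by omega) P (fun i j h => ?_) B hB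
  have e : (el h ((2 * m : ℕ) : ℤ) : SLn n) = el h (m : ℤ) ^ 2 := by
    rw [← zpow_natCast, el_zpow]; push_cast; rfl
  rw [e]
  exact P.pow_mem (hel i j h) 2

/-- **the matrix part**: `psi` trivial on `H_1(F_n; ℤ/M)` lies in `N ⊔ J1 n` for every normal
subgroup `N` of `Aut(F_n)` containing the `m`-th powers of the transvections -/
theorem transfer_all {n m : ℕ} (hn : 3 ≤ n) (hm : 0 < m) : Transfer n m :=
  transfer_of_csp (csp hn hm)

/-- the matrix part with the sharp level `m`, `m ≥ 3` -/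
theorem transfer_sharp {n m : ℕ} (hn : 3 ≤ n) (hm : 3 ≤ m) (N : Subgroup (A n)) [N.Normal]
    (hR : ∀ i j : Fin n, i ≠ j → R i (x j) ^ m ∈ N) (ψ : A n)
    (hψ : ∀ w : F n, CSP3.ab m (ψ w) = CSP3.ab m w) : ψ ∈ N ⊔ J1 n := by
  obtain ⟨ν, hν, hJ⟩ := transfer (m := m) (M := (m : ℤ)) (by exact_mod_cast hm)
    (fun P hP hel B hB => csp_sharp hn (by omega) P hel B hB) N
    (fun i j hij => hR j i (Ne.symm hij)) (ψ := ψ) (fun i j => by
      have h1 : Multiplicative.toAdd (CSP3.ab m (ψ (x j))) i =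
        Multiplicative.toAdd (CSP3.ab m (x j)) i := by rw [hψ (x j)]
      rw [ab_abz, ab_abz, abz_x] at h1
      rw [← ZMod.intCast_zmod_eq_zero_iff_dvd, Int.cast_sub, sub_eq_zero, h1, Matrix.one_apply,
        Pi.single_apply])
  have : ψ = ν * (ν⁻¹ * ψ) := by group
  rw [this]
  exact Subgroup.mul_mem_sup hν hJ

end Pool.Agent.CSP4
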