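import Pool.Agent.CSP3.IA

/-!
# The elements of `J1 n` which act trivially modulo `γ₃` lie in `⁅J1 n, J1 n⁆`
-/

set_option autoImplicit false

namespace Pool.Agent.CSP4

open Pool.Agent.CSP3
open scoped commutatorElement

variable {n : ℕ}

/-- the integral Heisenberg group -/
@[ext] structure Hs where
  a : ℤ
  b : ℤ
  c : ℤ

namespace Hs

instance : Mul Hs := ⟨fun u v => ⟨u.a + v.a, u.b + v.b, u.c + v.c + u.a * v.b⟩⟩
instance : One Hs := ⟨⟨0, 0, 0⟩⟩
instance : Inv Hs := ⟨fun u => ⟨-u.a, -u.b, -u.c + u.a * u.b⟩⟩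

@[simp] theorem mul_a (u v : Hs) : (u * v).a = u.a + v.a := rfl
@[simp] theorem mul_b (u v : Hs) : (u * v).b = u.b + v.b := rfl
@[simp] theorem mul_c (u v : Hs) : (u * v).c = u.c + v.c + u.a * v.b := rfl
@[simp] theorem one_a : (1 : Hs).a = 0 := rfl
@[simp] theorem one_b : (1 : Hs).b = 0 := rfl
@[simp] theorem one_c : (1 : Hs).c = 0 := rfl
@[simp] theorem inv_a (u : Hs) : (u⁻¹).a = -u.a := rfl
@[simp] theorem inv_b (u : Hs) : (u⁻¹).b = -u.b := rfl
@[simp] theorem inv_c (u : Hs) : (u⁻¹).c = -u.c + u.a * u.b := rfl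

instance : Group Hs :=
  Group.ofLeftAxioms
    (by intro u v w; ext <;> simp <;> ring)
    (by intro u; ext <;> simp)
    (by intro u; ext <;> simp)

/-- the elements with trivial abelian part -/
def Z : Subgroup Hs where
  carrier := {u | u.a = 0 ∧ u.b = 0}
  one_mem' := ⟨rfl, rfl⟩
  mul_mem' := by
    rintro u v ⟨h1, h2⟩ ⟨h3, h4⟩
    exact ⟨by rw [mul_a, h1, h3]; rfl, by rw [mul_b, h2, h4]; rfl⟩
  inv_mem' := by
    rintro u ⟨h1, h2⟩
    exact ⟨by rw [inv_a, h1]; rfl, by rw [inv_b, h2]; rfl⟩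

theorem comm_a (u v : Hs) : (⁅u, v⁆).a = 0 := by
  rw [commutatorElement_def]; simp

theorem comm_b (u v : Hs) : (⁅u, v⁆).b = 0 := by
  rw [commutatorElement_def]; simp

theorem comm_c (u v : Hs) : (⁅u, v⁆).c = u.a * v.b - v.a * u.b := by
  rw [commutatorElement_def]; simp; ring

theorem lcs2 : (⊤ : Subgroup Hs).lowerCentralSeries 2 = ⊥ := by
  rw [Subgroup.lowerCentralSeries_succ, eq_bot_iff, Subgroup.commutator_le]
  intro u hu v _
  have h1 : (⊤ : Subgroup Hs).lowerCentralSeries 1 ≤ Z := by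
    rw [Subgroup.lowerCentralSeries_succ, Subgroup.commutator_le]
    intro a _ b _
    exact ⟨comm_a a b, comm_b a b⟩
  obtain ⟨h2, h3⟩ := h1 hu
  rw [Subgroup.mem_bot]
  ext
  · exact comm_a u v
  · exact comm_b u v
  · rw [comm_c, h2, h3]; simp

end Hs

/-- the homomorphism of the free group to the Heisenberg group of the generators `p`, `q` -/
def hs (p q : Fin n) : F n →* Hs :=
  FreeGroup.lift (fun k => ⟨if k = p then 1 else 0, if k = q then 1 else 0, 0⟩)

theorem hs_x (p q k : Fin n) :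
    hs p q (x k) = ⟨if k = p then 1 else 0, if k = q then 1 else 0, 0⟩ := by
  simp [hs]

theorem hs_x_c (p q k : Fin n) : (hs p q (x k)).c = 0 := by rw [hs_x]

theorem hs_x_a (p q k : Fin n) : (hs p q (x k)).a = if k = p then 1 else 0 := by rw [hs_x]

theorem hs_x_b (p q k : Fin n) : (hs p q (x k)).b = if k = q then 1 else 0 := by rw [hs_x]

theorem hs_lcs1 {w : F n} (hw : w ∈ (⊤ : Subgroup (F n)).lowerCentralSeries 1) (p q : Fin n) :
    (hs p q w).a = 0 ∧ (hs p q w).b = 0 := by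
  have h : (⊤ : Subgroup (F n)).lowerCentralSeries 1 ≤ Hs.Z.comap (hs p q) := by
    rw [Subgroup.lowerCentralSeries_succ, Subgroup.commutator_le]
    intro a _ b _
    rw [Subgroup.mem_comap, map_commutatorElement]
    exact ⟨Hs.comm_a _ _, Hs.comm_b _ _⟩
  exact h hw

theorem hs_lcs2 {w : F n} (hw : w ∈ (⊤ : Subgroup (F n)).lowerCentralSeries 2) (p q : Fin n) :
    hs p q w = 1 := by
  have h : ((⊤ : Subgroup (F n)).lowerCentralSeries 2).map (hs p q) ≤
      (⊤ : Subgroup Hs).lowerCentralSeries 2 := by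
    rw [Subgroup.map_lowerCentralSeries]
    exact Subgroup.lowerCentralSeries_mono 2 le_top
  have h2 := h (Subgroup.mem_map_of_mem (hs p q) hw)
  rwa [Hs.lcs2, Subgroup.mem_bot] at h2

/-- the automorphisms which act trivially on the abelian part of every `hs p q` -/
def Tor (n : ℕ) : Subgroup (A n) where
  carrier := {φ | ∀ p q w, (hs p q (φ w)).a = (hs p q w).a ∧ (hs p q (φ w)).b = (hs p q w).b}
  one_mem' := fun p q w => ⟨rfl, rfl⟩
  mul_mem' := by
    intro φ ψ h1 h2 p q w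
    rw [MulAut.mul_apply]
    exact ⟨(h1 p q _).1.trans (h2 p q w).1, (h1 p q _).2.trans (h2 p q w).2⟩
  inv_mem' := by
    intro φ h p q w
    have := h p q (φ⁻¹ w)
    rw [MulAut.apply_inv_self] at this
    exact ⟨this.1.symm, this.2.symm⟩

/-- a hom to an abelian group does not see the action of `Tor n` -/
theorem Tor_of {φ : A n} (h : ∀ k, ∃ u ∈ (⊤ : Subgroup (F n)).lowerCentralSeries 1,
    φ (x k) = x k * u) : φ ∈ Tor n := by
  intro p q w
  induction w using FreeGroup.induction_on with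
  | C1 => rw [map_one]; exact ⟨rfl, rfl⟩
  | of k =>
    obtain ⟨u, hu, hk⟩ := h k
    have h2 := hs_lcs1 hu p q
    rw [hk, map_mul, Hs.mul_a, Hs.mul_b, h2.1, h2.2, add_zero, add_zero]
    exact ⟨rfl, rfl⟩
  | inv_of k hk =>
    rw [map_inv, map_inv, map_inv, Hs.inv_a, Hs.inv_b, Hs.inv_a, Hs.inv_b, hk.1, hk.2]
    exact ⟨rfl, rfl⟩
  | mul u v hu hv =>
    rw [map_mul, map_mul, map_mul, Hs.mul_a, Hs.mul_b, Hs.mul_a, Hs.mul_b, hu.1, hu.2, hv.1, hv.2]
    exact ⟨rfl, rfl⟩

/-- exponent sum of the generator `p` -/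
def ex (p : Fin n) : F n →* Multiplicative ℤ :=
  FreeGroup.lift (fun k => Multiplicative.ofAdd (if k = p then 1 else 0))

theorem hs_a (p q : Fin n) (w : F n) : (hs p q w).a = Multiplicative.toAdd (ex p w) := by
  induction w using FreeGroup.induction_on with
  | C1 => rfl
  | of k => rw [hs_x_a]; simp [ex]
  | inv_of k hk => rw [map_inv, map_inv, Hs.inv_a, hk]; rfl
  | mul u v hu hv => rw [map_mul, map_mul, Hs.mul_a, hu, hv]; rfl

theorem hs_b (p q : Fin n) (w : F n) : (hs p q w).b = Multiplicative.toAdd (ex q w) := by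
  induction w using FreeGroup.induction_on with
  | C1 => rfl
  | of k => rw [hs_x_b]; simp [ex]
  | inv_of k hk => rw [map_inv, map_inv, Hs.inv_b, hk]; rfl
  | mul u v hu hv => rw [map_mul, map_mul, Hs.mul_b, hu, hv]; rfl

/-- the Johnson coordinate -/
def jT (p q : Fin n) (φ : A n) (w : F n) : ℤ := (hs p q (φ w)).c - (hs p q w).c

theorem jT_mul_right {φ : A n} (h : φ ∈ Tor n) (p q : Fin n) (u v : F n) :
    jT p q φ (u * v) = jT p q φ u + jT p q φ v := by
  unfold jT
  rw [map_mul, map_mul, map_mul, Hs.mul_c, Hs.mul_c, (h p q u).1, (h p q v).2]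
  ring

theorem jT_one_right (p q : Fin n) (φ : A n) : jT p q φ 1 = 0 := by
  unfold jT
  rw [map_one, sub_self]

theorem jT_inv_right {φ : A n} (h : φ ∈ Tor n) (p q : Fin n) (u : F n) :
    jT p q φ u⁻¹ = - jT p q φ u := by
  have := jT_mul_right h p q u u⁻¹
  rw [mul_inv_cancel, jT_one_right] at this
  linarith

/-- the Johnson coordinate depends only on the exponent sums -/
theorem jT_eq_sum {φ : A n} (h : φ ∈ Tor n) (p q : Fin n) (w : F n) :
    jT p q φ w = ∑ k, Multiplicative.toAdd (ex k w) * jT p q φ (x k) := by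
  induction w using FreeGroup.induction_on with
  | C1 => rw [jT_one_right]; simp
  | of k =>
    rw [Finset.sum_eq_single k]
    · simp [ex]
    · intro b _ hb
      simp [ex, Ne.symm hb]
    · intro h; exact absurd (Finset.mem_univ k) h
  | inv_of k hk =>
    rw [jT_inv_right h, hk, ← Finset.sum_neg_distrib]
    refine Finset.sum_congr rfl fun l _ => ?_
    rw [map_inv, toAdd_inv]; ring
  | mul u v hu hv =>
    rw [jT_mul_right h, hu, hv, ← Finset.sum_add_distrib]
    refine Finset.sum_congr rfl fun l _ => ?_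
    rw [map_mul, toAdd_mul]; ring

theorem jT_mul {φ ψ : A n} (h1 : φ ∈ Tor n) (h2 : ψ ∈ Tor n) (p q : Fin n) (w : F n) :
    jT p q (φ * ψ) w = jT p q φ w + jT p q ψ w := by
  have e1 : jT p q (φ * ψ) w = jT p q φ (ψ w) + jT p q ψ w := by
    unfold jT; rw [MulAut.mul_apply]; ring
  have e2 : jT p q φ (ψ w) = jT p q φ w := by
    rw [jT_eq_sum h1, jT_eq_sum h1 p q w]
    refine Finset.sum_congr rfl fun l _ => ?_
    rw [← hs_a l l (ψ w), ← hs_a l l w, (h2 l l w).1]
  rw [e1, e2]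

theorem C_mem_Tor (i : Fin n) (w : F n) : C i w ∈ Tor n := by
  refine Tor_of fun k => ?_
  by_cases hk : k = i
  · subst hk
    refine ⟨⁅(x k)⁻¹, (kill k w)⁻¹⁆, comm_mem_lcs1 _ _, ?_⟩
    rw [C_apply_self, commutatorElement_def]; group
  · exact ⟨1, one_mem _, by rw [C_apply_ne hk, mul_one]⟩

theorem R_mem_Tor (i j k : Fin n) : R i ⁅x j, x k⁆ ∈ Tor n := by
  refine Tor_of fun l => ?_
  by_cases hl : l = i
  · subst hl
    refine ⟨kill l ⁅x j, x k⁆, ?_, ?_⟩
    · rw [map_commutatorElement]; exact comm_mem_lcs1 _ _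
    · rw [R_apply_self]
  · exact ⟨1, one_mem _, by rw [R_apply_ne hl, mul_one]⟩

theorem J1_le_Tor : J1 n ≤ Tor n := by
  unfold J1
  rw [Subgroup.closure_le]
  rintro _ (⟨i, j, hij, rfl⟩ | ⟨i, j, k, hij, hik, hjk, rfl⟩)
  · exact C_mem_Tor i (x j)
  · exact R_mem_Tor i j k

/-- all the Johnson coordinates -/
def tau (n : ℕ) : J1 n →* Multiplicative (Fin n × Fin n × Fin n → ℤ) where
  toFun φ := Multiplicative.ofAdd (fun t => jT t.2.1 t.2.2 (φ : A n) (x t.1))
  map_one' := by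
    rw [← ofAdd_zero]
    congr 1
    funext t
    show jT _ _ (1 : A n) _ = 0
    unfold jT
    exact sub_self _
  map_mul' φ ψ := by
    rw [← ofAdd_add]
    congr 1
    funext t
    exact jT_mul (J1_le_Tor φ.2) (J1_le_Tor ψ.2) _ _ _

/-- the class of `C i (x j)` -/
def cc (i j : Fin n) : Additive (Abelianization (J1 n)) :=
  Additive.ofMul (Abelianization.of ⟨C i (x j), C_mem_J1 i (x j)⟩)

/-- the class of `R i ⁅x j, x k⁆` -/
def mm (i j k : Fin n) : Additive (Abelianization (J1 n)) :=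
  Additive.ofMul (Abelianization.of ⟨R i ⁅x j, x k⁆, R_mem_J1 i (comm_mem_lcs1 (x j) (x k))⟩)

theorem mm_swap (i j k : Fin n) : mm i k j = - mm i j k := by
  unfold mm
  rw [← ofMul_inv, ← map_inv]
  have e : (⟨R i ⁅x k, x j⁆, R_mem_J1 i (comm_mem_lcs1 (x k) (x j))⟩ : J1 n) =
      (⟨R i ⁅x j, x k⁆, R_mem_J1 i (comm_mem_lcs1 (x j) (x k))⟩ : J1 n)⁻¹ := by
    refine Subtype.ext ?_
    show R i ⁅x k, x j⁆ = (R i ⁅x j, x k⁆)⁻¹
    rw [← map_inv, commutatorElement_inv]
  rw [e]

/-- the class which belongs to a Johnson coordinate -/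
def gen (t : Fin n × Fin n × Fin n) : Additive (Abelianization (J1 n)) :=
  if t.2.1 < t.2.2 then
    (if t.2.1 = t.1 then cc t.1 t.2.2
      else if t.2.2 = t.1 then - cc t.1 t.2.1 else mm t.1 t.2.1 t.2.2)
  else 0

/-- the inverse of the Johnson homomorphism -/
def sig (n : ℕ) : (Fin n × Fin n × Fin n → ℤ) →+ Additive (Abelianization (J1 n)) where
  toFun f := ∑ t, f t • gen t
  map_zero' := by simp
  map_add' f g := by
    rw [← Finset.sum_add_distrib]
    refine Finset.sum_congr rfl fun t _ => ?_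
    rw [Pi.add_apply, add_smul]

theorem sig_single (t : Fin n × Fin n × Fin n) : sig n (Pi.single t 1) = gen t := by
  show ∑ s, (Pi.single t (1 : ℤ) : Fin n × Fin n × Fin n → ℤ) s • gen s = gen t
  rw [Finset.sum_eq_single t]
  · rw [Pi.single_eq_same, one_smul]
  · intro b _ hb
    rw [Pi.single_eq_of_ne hb, zero_smul]
  · intro h; exact absurd (Finset.mem_univ t) h

theorem jT_C {i j : Fin n} (hij : i ≠ j) (p q l : Fin n) :
    jT p q (C i (x j)) (x l) = (Pi.single (i, i, j) 1 - Pi.single (i, j, i) 1 :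
      Fin n × Fin n × Fin n → ℤ) (l, p, q) := by
  rw [Pi.sub_apply, Pi.single_apply, Pi.single_apply]
  unfold jT
  by_cases hl : l = i
  · subst hl
    rw [C_apply_self, kill_ne hij.symm, map_mul, map_mul, map_inv, Hs.mul_c, Hs.mul_c, Hs.inv_c,
      Hs.mul_a, Hs.inv_a, hs_x_c, hs_x_c, hs_x_a, hs_x_a, hs_x_b, hs_x_b]
    simp only [Prod.mk.injEq, true_and]
    by_cases h1 : l = p
    · subst h1
      have h3 : ¬ j = l := Ne.symm hij
      by_cases h2 : j = q
      · subst h2; simp [hij, h3]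
      · simp [hij, h3, h2, Ne.symm h2]
    · by_cases h2 : j = p
      · subst h2
        by_cases h3 : l = q
        · subst h3; simp [hij, hij.symm]
        · by_cases h4 : j = q
          · subst h4; simp [hij, hij.symm]
          · simp [hij, hij.symm, h3, Ne.symm h3, h4]
      · simp [h1, h2, Ne.symm h1, Ne.symm h2]
  · rw [C_apply_ne hl, sub_self]
    simp [hl]

theorem jT_R {i j k : Fin n} (hij : i ≠ j) (hik : i ≠ k) (hjk : j ≠ k) (p q l : Fin n) :
    jT p q (R i ⁅x j, x k⁆) (x l) = (Pi.single (i, j, k) 1 - Pi.single (i, k, j) 1 :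
      Fin n × Fin n × Fin n → ℤ) (l, p, q) := by
  rw [Pi.sub_apply, Pi.single_apply, Pi.single_apply]
  unfold jT
  by_cases hl : l = i
  · subst hl
    rw [R_apply_self, map_commutatorElement, kill_ne hij.symm, kill_ne hik.symm, map_mul,
      map_commutatorElement, Hs.mul_c, Hs.comm_b, Hs.comm_c, hs_x_c, hs_x_a, hs_x_a, hs_x_b,
      hs_x_b]
    simp only [Prod.mk.injEq, true_and]
    by_cases h1 : j = p
    · subst h1
      by_cases h2 : k = q
      · subst h2; simp [hjk, hjk.symm]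
      · simp [hjk, hjk.symm, h2, Ne.symm h2]
    · by_cases h2 : k = p
      · subst h2
        by_cases h3 : j = q
        · subst h3; simp [hjk, hjk.symm]
        · simp [hjk, hjk.symm, h3, Ne.symm h3]
      · simp [h1, h2, Ne.symm h1, Ne.symm h2]
  · rw [R_apply_ne hl, sub_self]
    simp [hl]

theorem sig_C {i j : Fin n} (hij : i ≠ j) :
    sig n (Pi.single (i, i, j) 1 - Pi.single (i, j, i) 1) = cc i j := by
  rw [map_sub, sig_single, sig_single]
  unfold gen
  rcases lt_or_gt_of_ne hij with h | h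
  · simp [h, not_lt_of_gt h]
  · simp [h, not_lt_of_gt h, hij.symm]

theorem sig_R {i j k : Fin n} (hij : i ≠ j) (hik : i ≠ k) (hjk : j ≠ k) :
    sig n (Pi.single (i, j, k) 1 - Pi.single (i, k, j) 1) = mm i j k := by
  rw [map_sub, sig_single, sig_single]
  unfold gen
  rcases lt_or_gt_of_ne hjk with h | h
  · simp [h, not_lt_of_gt h, hij.symm, hik.symm]
  · simp [h, not_lt_of_gt h, hij.symm, hik.symm, mm_swap i j k]

theorem tau_apply (φ : J1 n) (t : Fin n × Fin n × Fin n) :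
    Multiplicative.toAdd (tau n φ) t = jT t.2.1 t.2.2 (φ : A n) (x t.1) := rfl

/-- the Johnson homomorphism is injective on the abelianization of `J1 n` -/
theorem sig_tau {φ : A n} (h : φ ∈ J1 n) :
    sig n (Multiplicative.toAdd (tau n ⟨φ, h⟩)) = Additive.ofMul (Abelianization.of ⟨φ, h⟩) := by
  have h' := h
  unfold J1 at h'
  induction h' using Subgroup.closure_induction with
  | mem g hg =>
    rcases hg with ⟨i, j, hij, rfl⟩ | ⟨i, j, k, hij, hik, hjk, rfl⟩
    · have e : Multiplicative.toAdd (tau n ⟨C i (x j), h⟩) =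
          Pi.single (i, i, j) 1 - Pi.single (i, j, i) 1 := by
        funext t
        exact jT_C hij t.2.1 t.2.2 t.1
      rw [e, sig_C hij]; rfl
    · have e : Multiplicative.toAdd (tau n ⟨R i ⁅x j, x k⁆, h⟩) =
          Pi.single (i, j, k) 1 - Pi.single (i, k, j) 1 := by
        funext t
        exact jT_R hij hik hjk t.2.1 t.2.2 t.1
      rw [e, sig_R hij hik hjk]; rfl
  | one =>
    rw [show (⟨1, h⟩ : J1 n) = 1 from rfl, map_one (tau n), toAdd_one, map_zero,
      map_one Abelianization.of, ofMul_one]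
  | mul a b ha hb iha ihb =>
    have e : (⟨a * b, h⟩ : J1 n) = ⟨a, ha⟩ * ⟨b, hb⟩ := rfl
    rw [e, map_mul (tau n), toAdd_mul, map_add, map_mul Abelianization.of, ofMul_mul]
    exact congrArg₂ (· + ·) (iha ha) (ihb hb)
  | inv a ha iha =>
    have e : (⟨a⁻¹, h⟩ : J1 n) = ⟨a, ha⟩⁻¹ := rfl
    rw [e, map_inv (tau n), toAdd_inv, map_neg, map_inv Abelianization.of, ofMul_inv]
    exact congrArg Neg.neg (iha ha)

/-- an element of `J1 n` all whose Johnson coordinates vanish is in the commutator subgroup -/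
theorem mem_comm_of_jT {φ : A n} (h : φ ∈ J1 n)
    (h0 : ∀ i p q : Fin n, jT p q φ (x i) = 0) : φ ∈ ⁅J1 n, J1 n⁆ := by
  have e : Multiplicative.toAdd (tau n ⟨φ, h⟩) = 0 := by
    funext t
    exact h0 t.1 t.2.1 t.2.2
  have e2 := sig_tau h
  rw [e, map_zero] at e2
  have e3 : Abelianization.of (⟨φ, h⟩ : J1 n) = 1 := e2.symm
  have e4 : (⟨φ, h⟩ : J1 n) ∈ commutator (J1 n) := by
    rw [← Abelianization.ker_of]; exact e3
  rw [← Subgroup.map_subtype_commutator]
  exact ⟨⟨φ, h⟩, e4, rfl⟩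

/-- an element of `J1 n` which acts trivially modulo `γ₃` is in the commutator subgroup -/
theorem mem_comm_of_left {φ : A n} (h : φ ∈ J1 n)
    (h2 : ∀ i : Fin n, (x i)⁻¹ * φ (x i) ∈ (⊤ : Subgroup (F n)).lowerCentralSeries 2) :
    φ ∈ ⁅J1 n, J1 n⁆ := by
  refine mem_comm_of_jT h fun i p q => ?_
  have h3 := hs_lcs2 (h2 i) p q
  rw [map_mul, map_inv, inv_mul_eq_one] at h3
  unfold jT
  rw [← h3, sub_self]

/-- an element of `J1 n` which acts trivially modulo `γ₃` is in the commutator subgroup -/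
theorem mem_comm_of_right {φ : A n} (h : φ ∈ J1 n)
    (h2 : ∀ i : Fin n, φ (x i) * (x i)⁻¹ ∈ (⊤ : Subgroup (F n)).lowerCentralSeries 2) :
    φ ∈ ⁅J1 n, J1 n⁆ := by
  refine mem_comm_of_jT h fun i p q => ?_
  have h3 := hs_lcs2 (h2 i) p q
  rw [map_mul, map_inv, mul_inv_eq_one] at h3
  unfold jT
  rw [h3, sub_self]

end Pool.Agent.CSP4
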