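import Pool.Agent.CSP3.Lev1

/-!
# Modulo `C i (γ_2)` the subgroup `J1` is abelian, `3 ≤ n` (no condition on transvections)

As `CSP3/Lev1.lean`, but the commutation of `C i (x j)` with `C j (x i)` and with
`R j ⁅x i, x b⁆` is obtained from a third generator instead of cubes of transvections:
conjugating by `ρ = R j (x i)`,
`ρ C i (x b) ρ⁻¹ = C i (x b) R j ⁅x b, x i⁆` commutes with `ρ C j (x i) ρ⁻¹ = C j (x i)` and with
`ρ C i (x j) ρ⁻¹ = C j (x i) C i (x j)`.
-/

set_option autoImplicit false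

namespace Pool.Agent.CSP4

open Pool.Agent.CSP3 Pool.Agent.CSP3.Lev1Aux

open scoped commutatorElement

variable {n : ℕ} {Q : Type*} [Group Q] (q : A n →* Q)

theorem inv_left_of {G : Type*} [Group G] (σ : F n →* G) (h : ∀ w ∈ gam n 2, σ w = 1)
    (u v : F n) : σ ⁅u⁻¹, v⁆ = (σ ⁅u, v⁆)⁻¹ := by
  have e : (⁅u⁻¹, v⁆ : F n) = u⁻¹ * ⁅u, v⁆⁻¹ * u := by
    simp only [commutatorElement_def]; group
  have hc : Commute (σ ⁅u, v⁆) (σ u) := central σ h (comm_mem u v) u
  rw [e, map_mul, map_mul, map_inv, map_inv, mul_assoc, hc.inv_left.eq, ← mul_assoc,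
    inv_mul_cancel, one_mul]

section main

variable (hC : ∀ i : Fin n, ∀ w ∈ gam n 1, q (C i w) = 1)

include hC in
/-- the loop: `C i (x j)` commutes with `R j ⁅x i, x b⁆` -/
theorem loopZ {i j b : Fin n} (hij : i ≠ j) (hbi : b ≠ i) (hbj : b ≠ j) :
    Commute (q (C i (x j))) (q (R j ⁅x i, x b⁆)) := by
  have k1 := congrArg q (R_conj_C_loop hij (x_mem_O hbi) (x_mem_O hbj))
  have k2 := congrArg q (R_conj_C_loop' hij)
  have k3 := congrArg q (R_conj_C_same j (x i) (x i))
  have hbb : Commute (q (C i (x b))) (q (C i (x j))) :=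
    commute_of (q.comp (C i)) (hC i _ (comm_mem (x b) (x j)))
  have hbc : Commute (q (C i (x b))) (q (C j (x i))) :=
    CC_ne q hC hij.symm (x_mem_O hbj) i
  have e3 : (⁅(x i)⁻¹, x i⁆ : F n) = 1 := by rw [commutatorElement_def]; group
  rw [e3, map_one, mul_one] at k3
  have e1 : q (R j ⁅x b, x i⁆) = (q (R j ⁅x i, x b⁆))⁻¹ := by
    rw [comm_inv b i, map_inv, map_inv]
  simp only [map_mul, map_inv] at k1 k2 k3
  rw [e1] at k1
  have h1 : Commute (q (C i (x b)) * (q (R j ⁅x i, x b⁆))⁻¹) (q (C j (x i))) := by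
    rw [← k1, ← k3]
    exact (Commute.conj_iff _).mpr hbc
  have h2 : Commute (q (C i (x b)) * (q (R j ⁅x i, x b⁆))⁻¹) (q (C j (x i)) * q (C i (x j))) := by
    rw [← k1, ← k2]
    exact (Commute.conj_iff _).mpr hbb
  have h3 : Commute (q (C i (x b)) * (q (R j ⁅x i, x b⁆))⁻¹) (q (C i (x j))) := by
    have := h1.inv_right.mul_right h2
    rwa [inv_mul_cancel_left] at this
  have h4 : Commute ((q (R j ⁅x i, x b⁆))⁻¹) (q (C i (x j))) := by
    have := hbb.inv_left.mul_left h3
    rwa [inv_mul_cancel_left] at this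
  have h5 := h4.inv_left
  rw [inv_inv] at h5
  exact h5.symm

include hC in
theorem baseZ {i j b : Fin n} (hij : i ≠ j) (hbi : b ≠ i) (hbj : b ≠ j) :
    Commute (q (C i (x j))) (q (C j (x i))) := by
  have hρ : ∀ w ∈ gam n 2, (q.comp (R b)) w = 1 := fun w hw => qR_gamma3 q hC b hw
  have k1 := congrArg q (R_conj_C_loop (i := i) (j := b) hbi.symm (x_mem_O hij.symm)
    (x_mem_O hbj.symm))
  have k2 := congrArg q (R_conj_C (i := j) (j := b) hbj.symm (x_mem_O hij) (x b))
  rw [R_apply_self, kill_ne hbi.symm] at k2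
  have h0 : Commute (q (C i (x j))) (q (C j (x b))) :=
    (CC_ne q hC hij (x_mem_O hbi) j).symm
  have hl : Commute (q (C j (x b))) (q (R b ⁅x j, x i⁆)) := loopZ q hC hbj.symm hij hbi.symm
  have hm : Commute (q (C j (x i))) (q (R b ⁅x j, x i⁆)) := by
    have h1 := congrArg q (C_conj_R (i := b) (j := j) hbj (x_mem_O hbi.symm) ⁅x j, x i⁆)
    have h2 : q (R b (C j (x i) ⁅x j, x i⁆)) = q (R b ⁅x j, x i⁆) :=
      IA_comm (q.comp (R b)) hρ (IA_C j (x i)) j i
    rw [h2, map_mul, map_mul, map_inv] at h1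
    exact of_conj h1
  simp only [map_mul, map_inv] at k1 k2
  have h1 : Commute (q (C i (x j)) * q (R b ⁅x j, x i⁆)) (q (C j (x b)) * q (C j (x i))) := by
    rw [← k1, ← k2]
    exact (Commute.conj_iff _).mpr h0
  have h2 : Commute (q (R b ⁅x j, x i⁆)) (q (C j (x b)) * q (C j (x i))) :=
    hl.symm.mul_right hm.symm
  have h3 : Commute (q (C i (x j))) (q (C j (x b)) * q (C j (x i))) := by
    have := h1.mul_left h2.inv_left
    rwa [mul_inv_cancel_right] at this
  have h4 := h0.inv_right.mul_right h3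
  rwa [inv_mul_cancel_left] at h4

variable (hn : ∀ i j : Fin n, ∃ b : Fin n, b ≠ i ∧ b ≠ j)

include hn hC in
theorem CCZ (i j l k : Fin n) : Commute (q (C i (x j))) (q (C l (x k))) := by
  by_cases hil : i = l
  · subst hil
    exact commute_of (q.comp (C i)) (hC i _ (comm_mem (x j) (x k)))
  by_cases hki : k = i
  · subst hki
    by_cases hjl : j = l
    · subst hjl
      obtain ⟨b, hbi, hbj⟩ := hn k j
      exact baseZ q hC hil hbi hbj
    · exact CC_ne q hC (Ne.symm hil) (x_mem_O hjl) k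
  · exact (CC_ne q hC hil (x_mem_O hki) j).symm

include hC in
theorem CRZ (i j l a b : Fin n) : Commute (q (C i (x j))) (q (R l ⁅x a, x b⁆)) := by
  have hρ : ∀ w ∈ gam n 2, (q.comp (R l)) w = 1 := fun w hw => qR_gamma3 q hC l hw
  by_cases hli : l = i
  · subst hli
    have h1 := congrArg q (C_conj_R_same l ⁅x a, x b⁆ (x j))
    have h2 : q (R l (x j * ⁅x a, x b⁆ * (x j)⁻¹)) = q (R l ⁅x a, x b⁆) := by
      have h3 : Commute ((q.comp (R l)) ⁅x a, x b⁆) ((q.comp (R l)) (x j)) :=
        central (q.comp (R l)) hρ (comm_mem _ _) _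
      have : (q.comp (R l)) (x j * ⁅x a, x b⁆ * (x j)⁻¹) = (q.comp (R l)) ⁅x a, x b⁆ := by
        rw [map_mul, map_mul, map_inv, ← h3.eq, mul_inv_cancel_right]
      exact this
    rw [h2, map_mul, map_mul, map_inv] at h1
    exact of_conj h1
  by_cases hjl : j = l
  · subst hjl
    -- `j = l`
    have loop : ∀ b : Fin n, b ≠ i → Commute (q (C i (x j))) (q (R j ⁅x i, x b⁆)) := by
      intro b hbi
      by_cases hbj : b = j
      · subst hbj
        rw [← R_kill, map_commutatorElement (kill b), kill_self, commutatorElement_one_right,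
          map_one, map_one]
        exact Commute.one_right _
      exact loopZ q hC (Ne.symm hli) hbi hbj
    by_cases hai : a = i
    · subst hai
      by_cases hba : b = a
      · subst hba
        rw [commutatorElement_self, map_one, map_one]
        exact Commute.one_right _
      · exact loop b hba
    by_cases hbi : b = i
    · subst hbi
      rw [comm_inv a b, map_inv (R j), map_inv q]
      exact (loop a hai).inv_right
    · have hv : ⁅x a, x b⁆ ∈ O i := comm_mem_O (x_mem_O hai) (x_mem_O hbi)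
      have h1 := congrArg q (R_conj_C (Ne.symm hli) hv (x j))
      have h2 : q (C i (R j ⁅x a, x b⁆ (x j))) = q (C i (x j)) :=
        IA_x (q.comp (C i)) (fun w hw => hC i w hw) (IA_R j (comm_mem _ _)) j
      rw [h2, map_mul, map_mul, map_inv] at h1
      exact (of_conj h1).symm
  · have h1 := congrArg q (C_conj_R hli (x_mem_O hjl) ⁅x a, x b⁆)
    have h2 : q (R l (C i (x j) ⁅x a, x b⁆)) = q (R l ⁅x a, x b⁆) :=
      IA_comm (q.comp (R l)) hρ (IA_C i (x j)) a b
    rw [h2, map_mul, map_mul, map_inv] at h1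
    exact of_conj h1

include hC in
/-- the loop case -/
theorem RR_loopZ {i l b d : Fin n} (hil : i ≠ l) (hbi : b ≠ i) (hbl : b ≠ l) (hdi : d ≠ i) :
    Commute (q (R i ⁅x l, x b⁆)) (q (R l ⁅x i, x d⁆)) := by
  have hρ : ∀ w ∈ gam n 2, (q.comp (R l)) w = 1 := fun w hw => qR_gamma3 q hC l hw
  have hρi : ∀ w ∈ gam n 2, (q.comp (R i)) w = 1 := fun w hw => qR_gamma3 q hC i hw
  have hPW : Commute (q (C i (x l))) (q (R l ⁅x i, x d⁆)) := CRZ q hC i l l i d
  have hPW' : Commute (q (C i (x l))) (q (R l ⁅x b, x d⁆)) := CRZ q hC i l l b d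
  have hMW' : Commute (q (R l ⁅x b, x d⁆)) (q (R i ⁅x l, x b⁆)) :=
    RR_of_mem q hC hil (comm_mem _ _) (comm_mem_O (x_mem_O hbi) (x_mem_O hdi)) l b
  have hM : q (R i ⁅(x l)⁻¹, x b⁆) = (q (R i ⁅x l, x b⁆))⁻¹ :=
    inv_left_of (q.comp (R i)) hρi (x l) (x b)
  have k1 := congrArg q (R_conj_C_same i (x b) (x l))
  have k2 := congrArg q (R_conj_R (Ne.symm hil) (x_mem_O hbl) ⁅x i, x d⁆)
  rw [map_commutatorElement (R i (x b)), R_apply_self, R_apply_ne hdi, kill_ne hbi] at k2
  rw [map_mul, map_mul, map_inv, map_mul, hM] at k1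
  rw [map_mul, map_mul, map_inv] at k2
  have k3 : q (R l ⁅x i * x b, x d⁆) = q (R l ⁅x i, x d⁆) * q (R l ⁅x b, x d⁆) := by
    have e : (⁅x i * x b, x d⁆ : F n) = (x i * ⁅x b, x d⁆ * (x i)⁻¹) * ⁅x i, x d⁆ := by
      simp only [commutatorElement_def]; group
    have hc1 : Commute ((q.comp (R l)) ⁅x b, x d⁆) ((q.comp (R l)) (x i)) :=
      central (q.comp (R l)) hρ (comm_mem (x b) (x d)) _
    have hc2 : Commute ((q.comp (R l)) ⁅x b, x d⁆) ((q.comp (R l)) ⁅x i, x d⁆) :=
      central (q.comp (R l)) hρ (comm_mem (x b) (x d)) _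
    have : (q.comp (R l)) ⁅x i * x b, x d⁆ =
        (q.comp (R l)) ⁅x i, x d⁆ * (q.comp (R l)) ⁅x b, x d⁆ := by
      rw [e, map_mul, map_mul, map_mul, map_inv, ← hc1.eq, mul_inv_cancel_right, hc2.eq]
    exact this
  rw [k3] at k2
  have hconj : Commute (q (C i (x l)) * (q (R i ⁅x l, x b⁆))⁻¹)
      (q (R l ⁅x i, x d⁆) * q (R l ⁅x b, x d⁆)) := by
    rw [← k1, ← k2]
    exact (Commute.conj_iff _).mpr hPW
  have h1 : Commute ((q (R i ⁅x l, x b⁆))⁻¹) (q (R l ⁅x i, x d⁆) * q (R l ⁅x b, x d⁆)) := by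
    have := (hPW.mul_right hPW').inv_left.mul_left hconj
    rwa [inv_mul_cancel_left] at this
  have h2 := h1.mul_right hMW'.symm.inv_left.inv_right
  rw [mul_inv_cancel_right] at h2
  have h3 := h2.inv_left
  rwa [inv_inv] at h3

include hC in
theorem RRZ (i a b l c d : Fin n) (hia : i ≠ a) (hib : i ≠ b) (hab : a ≠ b) (hlc : l ≠ c)
    (hld : l ≠ d) (hcd : c ≠ d) :
    Commute (q (R i ⁅x a, x b⁆)) (q (R l ⁅x c, x d⁆)) := by
  by_cases hil : i = l
  · subst hil
    exact central (q.comp (R i)) (fun w hw => qR_gamma3 q hC i hw) (comm_mem (x a) (x b)) _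
  by_cases hc : c = i
  · subst hc
    by_cases ha : a = l
    · subst ha
      exact RR_loopZ q hC hil hib.symm hab.symm hcd.symm
    by_cases hb : b = l
    · subst hb
      rw [comm_inv a b, map_inv (R c), map_inv q]
      exact (RR_loopZ q hC hil hia.symm hab hcd.symm).inv_left
    · exact RR_of_mem q hC (Ne.symm hil) (comm_mem _ _) (comm_mem_O (x_mem_O ha) (x_mem_O hb)) c d
  by_cases hd : d = i
  · subst hd
    by_cases ha : a = l
    · subst ha
      rw [comm_inv c d, map_inv (R a), map_inv q]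
      exact (RR_loopZ q hC hil hib.symm hab.symm hcd).inv_right
    by_cases hb : b = l
    · subst hb
      rw [comm_inv a b, map_inv (R d), map_inv q, comm_inv c d, map_inv (R b), map_inv q]
      exact (RR_loopZ q hC hil hia.symm hab hcd).inv_inv
    · exact RR_of_mem q hC (Ne.symm hil) (comm_mem _ _) (comm_mem_O (x_mem_O ha) (x_mem_O hb)) c d
  · exact (RR_of_mem q hC hil (comm_mem _ _) (comm_mem_O (x_mem_O hc) (x_mem_O hd)) a b).symm

end main

theorem third (hn : 3 ≤ n) (i j : Fin n) : ∃ b : Fin n, b ≠ i ∧ b ≠ j := by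
  by_contra h
  push Not at h
  have hc : (Finset.univ : Finset (Fin n)) ⊆ {i, j} := by
    intro b _
    rw [Finset.mem_insert, Finset.mem_singleton]
    by_cases hb : b = i
    · exact Or.inl hb
    · exact Or.inr (h b hb)
  have := Finset.card_le_card hc
  rw [Finset.card_univ, Fintype.card_fin] at this
  have h2 := Finset.card_le_two (a := i) (b := j)
  omega

/-- if `q` kills all `C i w`, `w ∈ γ_2`, then the image of `J1` is abelian -/
theorem lev1Z (hn : 3 ≤ n) (hC : ∀ i : Fin n, ∀ w ∈ gam n 1, q (C i w) = 1) {a b : A n}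
    (ha : a ∈ J1 n) (hb : b ∈ J1 n) : Commute (q a) (q b) := by
  unfold J1 at ha hb
  induction ha using Subgroup.closure_induction with
  | mem g hg =>
    induction hb using Subgroup.closure_induction with
    | mem g' hg' =>
      rcases hg with ⟨i, j, _, rfl⟩ | ⟨i, j, k, hij, hik, hjk, rfl⟩
      · rcases hg' with ⟨l, m, _, rfl⟩ | ⟨l, m, p, hlm, hlp, hmp, rfl⟩
        · exact CCZ q hC (third hn) i j l m
        · exact CRZ q hC i j l m p
      · rcases hg' with ⟨l, m, _, rfl⟩ | ⟨l, m, p, hlm, hlp, hmp, rfl⟩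
        · exact (CRZ q hC l m i j k).symm
        · exact RRZ q hC i j k l m p hij hik hjk hlm hlp hmp
    | one => rw [map_one]; exact Commute.one_right _
    | mul u v _ _ hu hv => rw [map_mul]; exact hu.mul_right hv
    | inv u _ hu => rw [map_inv]; exact hu.inv_right
  | one => rw [map_one]; exact Commute.one_left _
  | mul u v _ _ hu hv => rw [map_mul]; exact hu.mul_left hv
  | inv u _ hu => rw [map_inv]; exact hu.inv_left

end Pool.Agent.CSP4
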