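import Pool.Agent.CSP4.CspSL

/-!
# Normal subgroups containing `T ^ m` and `⁅C 1 (x 2), C 1 (x 3)⁆`: the sharp form

`TrivKf n (Hm M) ≤ N` with `M = m` for odd `m ≥ 3` and `M = 2 m` for even `m ≥ 2`, and the primes
which divide the index of `Kf n (Hm M)` divide `M`.
-/

set_option autoImplicit false

namespace Pool.Agent.CSP4

open Pool.Agent.CSP3
open scoped commutatorElement

variable {n : ℕ}

/-- a Heisenberg group over `ZMod m`, `m` odd, has exponent dividing `m` -/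
theorem Hm.pow_odd {m : ℕ} (hm : Odd m) (u : Hm m) : u ^ m = 1 := by
  have hm0 : (m : ZMod m) = 0 := ZMod.natCast_self m
  have h2 : IsUnit (2 : ZMod m) := by
    have := (ZMod.isUnit_iff_coprime 2 m).mpr (Nat.coprime_two_left.mpr hm)
    simpa using this
  ext
  · rw [(Hm.pow_ab u _).1, hm0]; simp
  · rw [(Hm.pow_ab u _).2, hm0]; simp
  · have h := Hm.pow_c u m
    rw [hm0, mul_zero, zero_mul, zero_mul, zero_mul, add_zero] at h
    have := h2.mul_left_cancel (h.trans (mul_zero (2 : ZMod m)).symm)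
    rw [this]; rfl

/-- powers of the transvections act trivially modulo `Kf n Q` if `Q` has the exponent -/
theorem R_pow_mem_TrivKf' {Q : Type} [Group Q] {M : ℕ} (hQ : ∀ u : Q, u ^ M = 1) (i : Fin n)
    (w : F n) : R i w ^ M ∈ TrivKf n Q := by
  refine mem_TrivKf_of fun f k => ?_
  rw [← map_pow]
  by_cases hk : k = i
  · subst hk
    rw [R_apply_self, map_mul, map_pow, map_pow, hQ, mul_one]
  · rw [R_apply_ne hk]

theorem main_sharp {m M : ℕ} (hn : 3 ≤ n) (hM : 3 ≤ M) (hmM : m ∣ M) (hQ : ∀ u : Hm m, u ^ M = 1)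
    (N : Subgroup (A n)) [hN : N.Normal] (h : ∀ i j : Fin n, i ≠ j → R i (x j) ^ m ∈ N)
    (hC : ∃ i j k : Fin n, i ≠ j ∧ i ≠ k ∧ j ≠ k ∧ C i ⁅x j, x k⁆ ∈ N) : TrivKf n (Hm M) ≤ N := by
  intro α hα
  obtain ⟨i, j, k, hij, hik, hjk, hC⟩ := hC
  have hJ : ⁅J1 n, J1 n⁆ ≤ N := comm_J1_le hn N hij hik hjk hC
  let V : Subgroup (A n) := Subgroup.normalClosure {g | ∃ i j : Fin n, i ≠ j ∧ g = R i (x j) ^ M}
  have hV1 : V ≤ N := by
    refine Subgroup.normalClosure_le_normal ?_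
    rintro _ ⟨i, j, hij, rfl⟩
    show R i (x j) ^ M ∈ N
    obtain ⟨k, hk⟩ := hmM
    rw [hk, pow_mul]
    exact N.pow_mem (h i j hij) k
  have hV2 : V ≤ TrivKf n (Hm m) := by
    refine Subgroup.normalClosure_le_normal ?_
    rintro _ ⟨i, j, hij, rfl⟩
    exact R_pow_mem_TrivKf' hQ i (x j)
  have hV : V.Normal := Subgroup.normalClosure_normal
  have h1 := transfer_sharp hn hM V (fun i j hij => Subgroup.subset_normalClosure ⟨i, j, hij, rfl⟩) α
    (ab_of_TrivKf hα)
  obtain ⟨ν, hν, β, hβ, rfl⟩ := Subgroup.mem_sup_of_normal_left.mp h1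
  refine N.mul_mem (hV1 hν) (beta_mem N h hJ hβ ?_)
  have h2 : ν⁻¹ * (ν * β) ∈ TrivKf n (Hm m) :=
    (TrivKf n (Hm m)).mul_mem ((TrivKf n (Hm m)).inv_mem (hV2 hν)) (TrivKf_mono hmM hα)
  rwa [inv_mul_cancel_left] at h2

/-! ### the index -/

theorem card_Hm (M : ℕ) : Nat.card (Hm M) = M ^ 3 := by
  let e : Hm M ≃ ZMod M × ZMod M × ZMod M :=
    { toFun := fun u => (u.a, u.b, u.c)
      invFun := fun t => ⟨t.1, t.2.1, t.2.2⟩
      left_inv := fun u => rfl
      right_inv := fun t => rfl }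
  rw [Nat.card_congr e, Nat.card_prod, Nat.card_prod, Nat.card_zmod]
  ring

/-- the index of `Kf n Q` divides a power of the order of `Q` -/
theorem index_Kf_dvd (Q : Type) [Group Q] [Finite Q] : ∃ e : ℕ, (Kf n Q).index ∣ Nat.card Q ^ e := by
  have : Finite (F n →* Q) := Finite.of_equiv (Fin n → Q) FreeGroup.lift
  let φ : F n →* ((F n →* Q) → Q) := MonoidHom.pi fun f => f
  have hk : φ.ker = Kf n Q := by
    ext w
    rw [mem_Kf, MonoidHom.mem_ker]
    exact ⟨fun h f => congrFun h f, fun h => funext h⟩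
  refine ⟨Nat.card (F n →* Q), ?_⟩
  rw [← hk, Subgroup.index_ker, ← Nat.card_fun]
  exact Subgroup.card_subgroup_dvd_card _

/-- the primes which divide the index of `Kf n (Hm M)` divide `M` -/
theorem dvd_of_dvd_index {M p : ℕ} [NeZero M] (hp : p.Prime) (h : p ∣ (Kf n (Hm M)).index) :
    p ∣ M := by
  obtain ⟨e, he⟩ := index_Kf_dvd (n := n) (Hm M)
  rw [card_Hm] at he
  exact hp.dvd_of_dvd_pow (hp.dvd_of_dvd_pow (h.trans he))

/-- **normal subgroups containing the `m`-th powers of the transvections, `m ≥ 3`, and one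
commutator of partial conjugations**: a characteristic subgroup `K` of the free group, with index
divisible only by primes dividing `m`, such that `N` contains the automorphisms trivial
modulo `K` -/
theorem main_comm {m : ℕ} (hn : 3 ≤ n) (hm : 3 ≤ m) :
    ∃ K : Subgroup (F n), K.Characteristic ∧ K.FiniteIndex ∧
      (∀ p : ℕ, p.Prime → p ∣ K.index → p ∣ m) ∧
      ∀ N : Subgroup (A n), N.Normal → (∀ i j : Fin n, i ≠ j → R i (x j) ^ m ∈ N) →
        (∃ i j k : Fin n, i ≠ j ∧ i ≠ k ∧ j ≠ k ∧ C i ⁅x j, x k⁆ ∈ N) →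
        ∀ ψ : A n, (∀ w, ψ w * w⁻¹ ∈ K) → ψ ∈ N := by
  rcases Nat.even_or_odd m with h2 | h2
  · have : NeZero (2 * m) := ⟨by omega⟩
    refine ⟨Kf n (Hm (2 * m)), inferInstance, inferInstance, fun p hp h => ?_,
      fun N hN h hC ψ hψ => ?_⟩
    · rcases hp.dvd_mul.mp (dvd_of_dvd_index hp h) with h3 | h3
      · exact h3.trans h2.two_dvd
      · exact h3
    · exact main_sharp hn (by omega) (Dvd.intro_left 2 rfl) Hm.pow_two_mul N h hC
        (mem_TrivKf_iff.mpr hψ)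
  · have : NeZero m := ⟨by omega⟩
    refine ⟨Kf n (Hm m), inferInstance, inferInstance, fun p hp h => dvd_of_dvd_index hp h,
      fun N hN h hC ψ hψ => ?_⟩
    exact main_sharp hn hm dvd_rfl (Hm.pow_odd h2) N h hC (mem_TrivKf_iff.mpr hψ)

end Pool.Agent.CSP4
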