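import Mathlib

/-!
# Integral matrices of determinant one: elementary matrices, congruences, block embeddings
-/

set_option autoImplicit false

namespace Pool.Agent.CSP4

/-- the special linear group over the integers -/
abbrev SLn (n : ℕ) := Matrix.SpecialLinearGroup (Fin n) ℤ

variable {n : ℕ}

/-- the underlying matrix -/
def mt (A : SLn n) : Matrix (Fin n) (Fin n) ℤ := A.1

theorem mt_mul (A B : SLn n) : mt (A * B) = mt A * mt B := rfl

theorem mt_one : mt (1 : SLn n) = 1 := rfl

theorem mt_inj {A B : SLn n} (h : mt A = mt B) : A = B := Subtype.ext h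

theorem det_mt (A : SLn n) : (mt A).det = 1 := A.2

/-- the elementary matrix with the entry `c` at `(i, j)` -/
def el {i j : Fin n} (h : i ≠ j) (c : ℤ) : SLn n := Matrix.SpecialLinearGroup.transvection h c

theorem mt_el {i j : Fin n} (h : i ≠ j) (c : ℤ) :
    mt (el h c : SLn n) = Matrix.transvection i j c := rfl

theorem el_mul {i j : Fin n} (h : i ≠ j) (c d : ℤ) : el h c * el h d = el h (c + d) := by
  apply mt_inj
  rw [mt_mul, mt_el, mt_el, mt_el]
  exact Matrix.transvection_mul_transvection_same i j h c d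

theorem el_zero {i j : Fin n} (h : i ≠ j) : (el h 0 : SLn n) = 1 := by
  apply mt_inj
  exact Matrix.transvection_zero i j

theorem el_neg {i j : Fin n} (h : i ≠ j) (c : ℤ) : el h (-c) = (el h c)⁻¹ := by
  rw [eq_inv_iff_mul_eq_one, el_mul, neg_add_cancel, el_zero]

theorem el_zpow {i j : Fin n} (h : i ≠ j) (c k : ℤ) : el h c ^ k = el h (k * c) := by
  induction k using Int.induction_on with
  | zero => rw [zpow_zero, zero_mul, el_zero]
  | succ k ih => rw [zpow_add_one, ih, el_mul]; congr 1; ring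
  | pred k ih => rw [zpow_sub_one, ih, ← el_neg, el_mul]; congr 1; ring

/-- a homomorphism that kills the elementary matrices with entry `m` kills those with entry `m k` -/
theorem map_el_of_dvd {G : Type*} [Group G] {f : SLn n →* G} {m : ℤ}
    (hf : ∀ (i j : Fin n) (h : i ≠ j), f (el h m) = 1) {i j : Fin n} (h : i ≠ j) {c : ℤ}
    (hc : m ∣ c) : f (el h c) = 1 := by
  obtain ⟨k, rfl⟩ := hc
  rw [mul_comm, ← el_zpow, map_zpow, hf, one_zpow]

/-- congruence to the identity modulo `m` -/
def CongOne (m : ℤ) (A : SLn n) : Prop :=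
  ∀ i j : Fin n, m ∣ mt A i j - (1 : Matrix (Fin n) (Fin n) ℤ) i j

theorem CongOne.mono {m k : ℤ} {A : SLn n} (hA : CongOne k A) (h : m ∣ k) : CongOne m A :=
  fun i j => h.trans (hA i j)

theorem congOne_iff {m : ℤ} {A : SLn n} : CongOne m A ↔
    (mt A).map (Int.castRingHom (ZMod m.natAbs)) = 1 := by
  constructor
  · intro h
    ext i j
    have h1 := h i j
    rw [← Int.natAbs_dvd, ← ZMod.intCast_zmod_eq_zero_iff_dvd] at h1
    rw [Int.cast_sub, sub_eq_zero] at h1
    rw [Matrix.map_apply]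
    show (mt A i j : ZMod m.natAbs) = _
    rw [h1, Matrix.one_apply, Matrix.one_apply]
    split_ifs <;> simp
  · intro h i j
    have h1 := congrFun (congrFun h i) j
    rw [Matrix.map_apply] at h1
    have h2 : (mt A i j : ZMod m.natAbs) = (1 : Matrix _ _ (ZMod m.natAbs)) i j := h1
    rw [← Int.natAbs_dvd, ← ZMod.intCast_zmod_eq_zero_iff_dvd, Int.cast_sub, h2, Matrix.one_apply,
      Matrix.one_apply]
    split_ifs <;> simp

theorem CongOne.mul {m : ℤ} {A B : SLn n} (hA : CongOne m A) (hB : CongOne m B) :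
    CongOne m (A * B) := by
  rw [congOne_iff] at *
  rw [mt_mul, Matrix.map_mul, hA, hB, one_mul]

theorem congOne_one {m : ℤ} : CongOne m (1 : SLn n) := by
  intro i j
  rw [mt_one, sub_self]
  exact dvd_zero m

theorem map_one_castHom (k : ℕ) :
    (1 : Matrix (Fin n) (Fin n) ℤ).map (Int.castRingHom (ZMod k)) = 1 :=
  Matrix.map_one _ (map_zero _) (map_one _)

theorem CongOne.conj {m : ℤ} {A : SLn n} (hA : CongOne m A) (B : SLn n) :
    CongOne m (B * A * B⁻¹) := by
  rw [congOne_iff] at *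
  rw [mt_mul, mt_mul, Matrix.map_mul, Matrix.map_mul, hA,
    mul_one, ← Matrix.map_mul, ← mt_mul, mul_inv_cancel, mt_one, map_one_castHom]

theorem CongOne.inv {m : ℤ} {A : SLn n} (hA : CongOne m A) : CongOne m A⁻¹ := by
  have h1 : (mt A).map (Int.castRingHom (ZMod m.natAbs)) = 1 := congOne_iff.mp hA
  rw [congOne_iff]
  have h2 : (mt (A⁻¹ * A)).map (Int.castRingHom (ZMod m.natAbs)) = 1 := by
    rw [inv_mul_cancel, mt_one, map_one_castHom]
  rw [mt_mul, Matrix.map_mul, h1, mul_one] at h2
  exact h2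

theorem congOne_el {m c : ℤ} {i j : Fin n} (h : i ≠ j) (hc : m ∣ c) : CongOne m (el h c : SLn n) := by
  intro a b
  rw [mt_el, Matrix.transvection, Matrix.add_apply, add_sub_cancel_left, Matrix.single_apply]
  split_ifs
  · exact hc
  · exact dvd_zero m

/-- the matrix `1 ⊕ A` -/
def inlM (A : Matrix (Fin n) (Fin n) ℤ) : Matrix (Fin (n + 1)) (Fin (n + 1)) ℤ :=
  fun i j => Fin.cases (Fin.cases 1 (fun _ => 0) j) (fun i' => Fin.cases 0 (fun j' => A i' j') j) i

@[simp] theorem inlM_zero_zero (A : Matrix (Fin n) (Fin n) ℤ) : inlM A 0 0 = 1 := rfl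
@[simp] theorem inlM_zero_succ (A : Matrix (Fin n) (Fin n) ℤ) (j : Fin n) :
    inlM A 0 j.succ = 0 := rfl
@[simp] theorem inlM_succ_zero (A : Matrix (Fin n) (Fin n) ℤ) (i : Fin n) :
    inlM A i.succ 0 = 0 := rfl
@[simp] theorem inlM_succ_succ (A : Matrix (Fin n) (Fin n) ℤ) (i j : Fin n) :
    inlM A i.succ j.succ = A i j := rfl

theorem inlM_mul (A B : Matrix (Fin n) (Fin n) ℤ) : inlM (A * B) = inlM A * inlM B := by
  ext i j
  rw [Matrix.mul_apply, Fin.sum_univ_succ]
  refine Fin.cases ?_ (fun i' => ?_) i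
  · refine Fin.cases ?_ (fun j' => ?_) j
    · simp
    · simp
  · refine Fin.cases ?_ (fun j' => ?_) j
    · simp
    · simp [Matrix.mul_apply]

theorem inlM_one : inlM (1 : Matrix (Fin n) (Fin n) ℤ) = 1 := by
  ext i j
  refine Fin.cases ?_ (fun i' => ?_) i
  · refine Fin.cases ?_ (fun j' => ?_) j
    · simp
    · simp [Matrix.one_apply, (Fin.succ_ne_zero j').symm]
  · refine Fin.cases ?_ (fun j' => ?_) j
    · simp [Matrix.one_apply, Fin.succ_ne_zero i']
    · simp [Matrix.one_apply]

theorem det_inlM (A : Matrix (Fin n) (Fin n) ℤ) : (inlM A).det = A.det := by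
  rw [Matrix.det_succ_row_zero, Fin.sum_univ_succ]
  have h1 : (inlM A).submatrix Fin.succ (Fin.succAbove 0) = A := by
    ext i j
    rw [Matrix.submatrix_apply, Fin.succAbove_zero, inlM_succ_succ]
  rw [h1]
  simp

/-- the embedding `A ↦ 1 ⊕ A` -/
def inl : SLn n →* SLn (n + 1) where
  toFun A := ⟨inlM (mt A), by rw [det_inlM]; exact A.2⟩
  map_one' := Subtype.ext inlM_one
  map_mul' A B := Subtype.ext (inlM_mul (mt A) (mt B))

theorem mt_inl (A : SLn n) : mt (inl A : SLn (n + 1)) = inlM (mt A) := rfl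

theorem inl_el {i j : Fin n} (h : i ≠ j) (c : ℤ) :
    inl (el h c) = el (i := i.succ) (j := j.succ) (fun e => h (Fin.succ_injective _ e)) c := by
  apply mt_inj
  rw [mt_inl, mt_el, mt_el]
  ext a b
  refine Fin.cases ?_ (fun a' => ?_) a
  · refine Fin.cases ?_ (fun b' => ?_) b
    · simp [Matrix.transvection, Matrix.single_apply, Fin.succ_ne_zero]
    · simp [Matrix.transvection, Matrix.single_apply, Matrix.one_apply, Fin.succ_ne_zero,
        (Fin.succ_ne_zero b').symm]
  · refine Fin.cases ?_ (fun b' => ?_) b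
    · simp [Matrix.transvection, Matrix.single_apply, Matrix.one_apply, Fin.succ_ne_zero]
    · simp [Matrix.transvection, Matrix.single_apply, Matrix.one_apply]

theorem CongOne.inl {m : ℤ} {A : SLn n} (hA : CongOne m A) : CongOne m (CSP4.inl A) := by
  intro i j
  rw [mt_inl, ← inlM_one]
  refine Fin.cases ?_ (fun i' => ?_) i
  · refine Fin.cases ?_ (fun j' => ?_) j
    · simp
    · simp
  · refine Fin.cases ?_ (fun j' => ?_) j
    · simp
    · exact hA i' j'

theorem congOne_of_inl {m : ℤ} {A : SLn n} (hA : CongOne m (CSP4.inl A)) : CongOne m A := by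
  intro i j
  have h := hA i.succ j.succ
  rw [mt_inl, ← inlM_one] at h
  exact h

end Pool.Agent.CSP4
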