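import Pool.Agent.CSP4.SLBase

/-!
# Reduction of an integral matrix `A = 1 mod m` to a smaller block
-/

set_option autoImplicit false

namespace Pool.Agent.CSP4

variable {n : ℕ}

theorem exists_isCoprime_add_mul {a b c : ℤ} (ha : a ≠ 0)
    (h : ∀ p : ℕ, p.Prime → (p : ℤ) ∣ a → (p : ℤ) ∣ b → (p : ℤ) ∣ c → False) :
    ∃ t : ℤ, IsCoprime a (b + t * c) := by
  classical
  obtain ⟨S, hS⟩ : ∃ S : Finset ℕ, S = a.natAbs.primeFactors.filter (fun p : ℕ => ¬ ((p : ℤ) ∣ b)) :=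
    ⟨_, rfl⟩
  have hprime : ∀ p ∈ S, p.Prime := by
    intro p hp
    rw [hS, Finset.mem_filter] at hp
    exact Nat.prime_of_mem_primeFactors hp.1
  refine ⟨((∏ p ∈ S, p : ℕ) : ℤ), ?_⟩
  rw [Int.isCoprime_iff_nat_coprime, Nat.coprime_iff_gcd_eq_one]
  by_contra hne
  obtain ⟨r, hr, hd⟩ := Nat.exists_prime_and_dvd hne
  have h1 := dvd_trans hd (Nat.gcd_dvd_left _ _)
  have h2 := dvd_trans hd (Nat.gcd_dvd_right _ _)
  rw [← Int.natCast_dvd] at h2
  have h1' : (r : ℤ) ∣ a := Int.natCast_dvd.mpr h1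
  by_cases hb : (r : ℤ) ∣ b
  · have h3 : (r : ℤ) ∣ ((∏ p ∈ S, p : ℕ) : ℤ) * c := (dvd_add_right hb).mp h2
    rcases (Nat.prime_iff_prime_int.mp hr).dvd_or_dvd h3 with h4 | h4
    · rw [Int.natCast_dvd_natCast, (Nat.prime_iff.mp hr).dvd_finsetProd_iff] at h4
      obtain ⟨p, hp, hrp⟩ := h4
      have h5 : r = p := (Nat.prime_dvd_prime_iff_eq hr (hprime p hp)).mp hrp
      rw [← h5, hS, Finset.mem_filter] at hp
      exact hp.2 hb
    · exact h r hr h1' hb h4
  · have hrS : r ∈ S := by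
      rw [hS, Finset.mem_filter]
      exact ⟨Nat.mem_primeFactors.mpr ⟨hr, h1, Int.natAbs_ne_zero.mpr ha⟩, hb⟩
    have h3 : (r : ℤ) ∣ ((∏ p ∈ S, p : ℕ) : ℤ) * c := by
      refine Dvd.dvd.mul_right ?_ _
      exact_mod_cast Finset.dvd_prod_of_mem (fun p => p) hrS
    exact hb ((dvd_add_left h3).mp h2)

section

variable {G : Type*} [Group G] {f : SLn n →* G} {m : ℤ}

/-- adding multiples of columns to the column `k` -/
theorem exCol (hf : ∀ (i j : Fin n) (h : i ≠ j), f (el h m) = 1) (k : Fin n) (c : Fin n → ℤ)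
    (s : Finset (Fin n)) : k ∉ s → (∀ j ∈ s, m ∣ c j) →
    ∃ E : SLn n, f E = 1 ∧ CongOne m E ∧ mt E = 1 + ∑ j ∈ s, Matrix.single j k (c j) := by
  classical
  induction s using Finset.induction_on with
  | empty =>
    intro _ _
    exact ⟨1, map_one f, congOne_one, by rw [mt_one, Finset.sum_empty, add_zero]⟩
  | insert j0 s hj0 ih =>
    intro hk hc
    rw [Finset.mem_insert, not_or] at hk
    obtain ⟨E, h1, h2, h3⟩ := ih hk.2 (fun j hj => hc j (Finset.mem_insert_of_mem hj))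
    have hjk : j0 ≠ k := Ne.symm hk.1
    have hd := hc j0 (Finset.mem_insert_self _ _)
    refine ⟨E * el hjk (c j0), ?_, h2.mul (congOne_el hjk hd), ?_⟩
    · rw [map_mul, h1, map_el_of_dvd hf hjk hd, one_mul]
    · rw [mt_mul, h3, mt_el, Matrix.transvection, Finset.sum_insert hj0, Matrix.mul_add,
        Matrix.mul_one, Matrix.add_mul, Matrix.one_mul, Finset.sum_mul]
      have : ∑ i ∈ s, Matrix.single i k (c i) * Matrix.single j0 k (c j0) = 0 := by
        refine Finset.sum_eq_zero fun i _ => ?_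
        exact Matrix.single_mul_single_of_ne _ _ _ _ hk.1 _
      rw [this]
      abel

/-- adding multiples of rows to the row `k` -/
theorem exRow (hf : ∀ (i j : Fin n) (h : i ≠ j), f (el h m) = 1) (k : Fin n) (c : Fin n → ℤ)
    (s : Finset (Fin n)) : k ∉ s → (∀ j ∈ s, m ∣ c j) →
    ∃ E : SLn n, f E = 1 ∧ CongOne m E ∧ mt E = 1 + ∑ j ∈ s, Matrix.single k j (c j) := by
  classical
  induction s using Finset.induction_on with
  | empty =>
    intro _ _
    exact ⟨1, map_one f, congOne_one, by rw [mt_one, Finset.sum_empty, add_zero]⟩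
  | insert j0 s hj0 ih =>
    intro hk hc
    rw [Finset.mem_insert, not_or] at hk
    obtain ⟨E, h1, h2, h3⟩ := ih hk.2 (fun j hj => hc j (Finset.mem_insert_of_mem hj))
    have hjk : k ≠ j0 := hk.1
    have hd := hc j0 (Finset.mem_insert_self _ _)
    refine ⟨el hjk (c j0) * E, ?_, (congOne_el hjk hd).mul h2, ?_⟩
    · rw [map_mul, h1, map_el_of_dvd hf hjk hd, one_mul]
    · rw [mt_mul, h3, mt_el, Matrix.transvection, Finset.sum_insert hj0, Matrix.mul_add,
        Matrix.mul_one, Matrix.add_mul, Matrix.one_mul, Finset.mul_sum]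
      have : ∑ i ∈ s, Matrix.single k j0 (c j0) * Matrix.single k i (c i) = 0 := by
        refine Finset.sum_eq_zero fun i _ => ?_
        exact Matrix.single_mul_single_of_ne _ _ _ _ (Ne.symm hk.1) _
      rw [this]
      abel

end

theorem mul_colE_same (M : Matrix (Fin n) (Fin n) ℤ) (k : Fin n) (c : Fin n → ℤ)
    (s : Finset (Fin n)) (a : Fin n) :
    (M * (1 + ∑ j ∈ s, Matrix.single j k (c j))) a k = M a k + ∑ j ∈ s, M a j * c j := by
  rw [Matrix.mul_add, Matrix.mul_one, Matrix.add_apply, Finset.mul_sum, Matrix.sum_apply]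
  congr 1
  refine Finset.sum_congr rfl fun j _ => ?_
  rw [Matrix.mul_single_apply_same]

theorem mul_colE_ne (M : Matrix (Fin n) (Fin n) ℤ) (k : Fin n) (c : Fin n → ℤ)
    (s : Finset (Fin n)) (a b : Fin n) (hb : b ≠ k) :
    (M * (1 + ∑ j ∈ s, Matrix.single j k (c j))) a b = M a b := by
  rw [Matrix.mul_add, Matrix.mul_one, Matrix.add_apply, Finset.mul_sum, Matrix.sum_apply,
    Finset.sum_eq_zero, add_zero]
  intro j _
  exact Matrix.mul_single_apply_of_ne _ _ _ _ _ hb _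

theorem colE_mul (M : Matrix (Fin n) (Fin n) ℤ) (k : Fin n) (c : Fin n → ℤ)
    (s : Finset (Fin n)) (a b : Fin n) :
    ((1 + ∑ j ∈ s, Matrix.single j k (c j)) * M) a b =
      M a b + if a ∈ s then c a * M k b else 0 := by
  rw [Matrix.add_mul, Matrix.one_mul, Matrix.add_apply, Finset.sum_mul, Matrix.sum_apply]
  congr 1
  by_cases ha : a ∈ s
  · rw [if_pos ha, Finset.sum_eq_single a]
    · rw [Matrix.single_mul_apply_same]
    · intro j _ hj
      exact Matrix.single_mul_apply_of_ne _ _ _ _ _ (Ne.symm hj) _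
    · intro h; exact absurd ha h
  · rw [if_neg ha]
    refine Finset.sum_eq_zero fun j hj => ?_
    exact Matrix.single_mul_apply_of_ne _ _ _ _ _ (fun h => ha (by rw [h]; exact hj)) _

theorem mul_rowE (M : Matrix (Fin n) (Fin n) ℤ) (k : Fin n) (c : Fin n → ℤ)
    (s : Finset (Fin n)) (a b : Fin n) :
    (M * (1 + ∑ j ∈ s, Matrix.single k j (c j))) a b =
      M a b + if b ∈ s then M a k * c b else 0 := by
  rw [Matrix.mul_add, Matrix.mul_one, Matrix.add_apply, Finset.mul_sum, Matrix.sum_apply]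
  congr 1
  by_cases hb : b ∈ s
  · rw [if_pos hb, Finset.sum_eq_single b]
    · rw [Matrix.mul_single_apply_same]
    · intro j _ hj
      exact Matrix.mul_single_apply_of_ne _ _ _ _ _ (Ne.symm hj) _
    · intro h; exact absurd hb h
  · rw [if_neg hb]
    refine Finset.sum_eq_zero fun j hj => ?_
    exact Matrix.mul_single_apply_of_ne _ _ _ _ _ (fun h => hb (by rw [h]; exact hj)) _

/-- clearing the first row and the first column -/
theorem red_of_one {m : ℤ} {G : Type*} [Group G] (f : SLn (n + 1) →* G)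
    (hf : ∀ (i j : Fin (n + 1)) (h : i ≠ j), f (el h m) = 1) (C : SLn (n + 1))
    (hC : CongOne m C) (h00 : mt C 0 0 = 1) :
    ∃ A' : SLn n, CongOne m A' ∧ f C = f (inl A') := by
  classical
  have hs : (0 : Fin (n + 1)) ∉ Finset.univ.erase (0 : Fin (n + 1)) := Finset.notMem_erase _ _
  have hne : ∀ j ∈ Finset.univ.erase (0 : Fin (n + 1)), j ≠ 0 := fun j hj =>
    Finset.ne_of_mem_erase hj
  have hc1 : ∀ j ∈ Finset.univ.erase (0 : Fin (n + 1)), m ∣ - mt C j 0 := by
    intro j hj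
    have := hC j 0
    rw [Matrix.one_apply_ne (hne j hj), sub_zero] at this
    rwa [dvd_neg]
  have hc2 : ∀ j ∈ Finset.univ.erase (0 : Fin (n + 1)), m ∣ - mt C 0 j := by
    intro j hj
    have := hC 0 j
    rw [Matrix.one_apply_ne (Ne.symm (hne j hj)), sub_zero] at this
    rwa [dvd_neg]
  obtain ⟨E, e1, e2, e3⟩ := exCol hf 0 (fun j => - mt C j 0) _ hs hc1
  obtain ⟨E', e1', e2', e3'⟩ := exRow hf 0 (fun j => - mt C 0 j) _ hs hc2
  have hmem : ∀ i : Fin n, i.succ ∈ Finset.univ.erase (0 : Fin (n + 1)) := fun i =>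
    Finset.mem_erase.mpr ⟨Fin.succ_ne_zero i, Finset.mem_univ _⟩
  have hY : ∀ a b, mt (E * C * E') a b = mt (E * C) a b +
      if b ∈ Finset.univ.erase (0 : Fin (n + 1)) then mt (E * C) a 0 * (- mt C 0 b) else 0 := by
    intro a b
    rw [mt_mul, e3']
    exact mul_rowE _ _ _ _ _ _
  have hX : ∀ a b, mt (E * C) a b = mt C a b +
      if a ∈ Finset.univ.erase (0 : Fin (n + 1)) then (- mt C a 0) * mt C 0 b else 0 := by
    intro a b
    rw [mt_mul, e3]
    exact colE_mul _ _ _ _ _ _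
  have hX00 : mt (E * C) 0 0 = 1 := by rw [hX, if_neg hs, add_zero, h00]
  have hXs0 : ∀ i : Fin n, mt (E * C) i.succ 0 = 0 := by
    intro i; rw [hX, if_pos (hmem i), h00]; ring
  have hX0s : ∀ i : Fin n, mt (E * C) 0 i.succ = mt C 0 i.succ := by
    intro i; rw [hX, if_neg hs, add_zero]
  have hY00 : mt (E * C * E') 0 0 = 1 := by rw [hY, if_neg hs, add_zero, hX00]
  have hYs0 : ∀ i : Fin n, mt (E * C * E') i.succ 0 = 0 := by
    intro i; rw [hY, if_neg hs, add_zero, hXs0]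
  have hY0s : ∀ i : Fin n, mt (E * C * E') 0 i.succ = 0 := by
    intro i; rw [hY, if_pos (hmem i), hX00, hX0s]; ring
  obtain ⟨D, hD⟩ : ∃ D : Matrix (Fin n) (Fin n) ℤ, D = fun i j => mt (E * C * E') i.succ j.succ :=
    ⟨_, rfl⟩
  have hDM : inlM D = mt (E * C * E') := by
    ext i j
    refine Fin.cases ?_ (fun i' => ?_) i
    · refine Fin.cases ?_ (fun j' => ?_) j
      · rw [inlM_zero_zero, hY00]
      · rw [inlM_zero_succ, hY0s]
    · refine Fin.cases ?_ (fun j' => ?_) j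
      · rw [inlM_succ_zero, hYs0]
      · rw [inlM_succ_succ, hD]
  have hdet : D.det = 1 := by rw [← det_inlM, hDM]; exact det_mt _
  have hA : inl (⟨D, hdet⟩ : SLn n) = E * C * E' := mt_inj hDM
  refine ⟨⟨D, hdet⟩, ?_, ?_⟩
  · apply congOne_of_inl
    rw [hA]
    exact (e2.mul hC).mul e2'
  · rw [hA, map_mul, map_mul, e1, e1', one_mul, mul_one]

/-- reduction to a smaller block, the level does not change -/
theorem red (hn : 2 ≤ n) {m : ℤ} (hm : 2 ≤ m) {G : Type*} [Group G] (f : SLn (n + 1) →* G)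
    (hf : ∀ (i j : Fin (n + 1)) (h : i ≠ j), f (el h m) = 1) (A : SLn (n + 1))
    (hA : CongOne m A) :
    ∃ A' : SLn n, CongOne m A' ∧ ∃ g : G, f A = g * f (inl A') * g⁻¹ := by
  classical
  obtain ⟨i1, hi1⟩ : ∃ i : Fin (n + 1), i = ⟨1, by omega⟩ := ⟨_, rfl⟩
  obtain ⟨i2, hi2⟩ : ∃ i : Fin (n + 1), i = ⟨2, by omega⟩ := ⟨_, rfl⟩
  have h10 : i1 ≠ 0 := by rw [hi1]; intro h; have := congrArg Fin.val h; simp at this
  have h20 : i2 ≠ 0 := by rw [hi2]; intro h; have := congrArg Fin.val h; simp at this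
  have h21 : i2 ≠ i1 := by rw [hi1, hi2]; intro h; have := congrArg Fin.val h; simp at this
  -- the first entry is not zero
  have ha : m ∣ mt A 0 0 - 1 := by
    have := hA 0 0
    rwa [Matrix.one_apply_eq] at this
  have ha0 : mt A 0 0 ≠ 0 := by
    intro h
    rw [h, zero_sub, dvd_neg] at ha
    have := Int.le_of_dvd one_pos ha
    omega
  -- the first row is unimodular
  obtain ⟨y, hy⟩ : ∃ y : Fin (n + 1) → ℤ, y = fun j => mt A⁻¹ j 0 := ⟨_, rfl⟩
  have hsum : ∑ j, mt A 0 j * y j = 1 := by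
    have h := congrFun (congrFun (congrArg mt (mul_inv_cancel A)) 0) 0
    rw [mt_mul, mt_one, Matrix.one_apply_eq, Matrix.mul_apply] at h
    rw [hy]; exact h
  obtain ⟨s, hs⟩ : ∃ s : Finset (Fin (n + 1)), s = (Finset.univ.erase 0).erase i1 := ⟨_, rfl⟩
  obtain ⟨c0, hc0⟩ : ∃ c : ℤ, c = ∑ j ∈ s, mt A 0 j * y j := ⟨_, rfl⟩
  have hsum2 : mt A 0 0 * y 0 + (mt A 0 i1 * y i1 + c0) = 1 := by
    rw [hc0, hs, Finset.add_sum_erase _ (fun j => mt A 0 j * y j)
      (Finset.mem_erase.mpr ⟨h10, Finset.mem_univ _⟩),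
      Finset.add_sum_erase _ (fun j => mt A 0 j * y j) (Finset.mem_univ 0)]
    exact hsum
  obtain ⟨t, ht⟩ := exists_isCoprime_add_mul (a := mt A 0 0) (b := mt A 0 i1) (c := m * c0) ha0 (by
    intro p hp p1 p2 p3
    have hp' := Nat.prime_iff_prime_int.mp hp
    rcases hp'.dvd_or_dvd p3 with p4 | p4
    · have h5 : (p : ℤ) ∣ mt A 0 0 - 1 := p4.trans ha
      have h6 : (p : ℤ) ∣ 1 := by
        have := dvd_sub p1 h5
        rwa [sub_sub_cancel] at this
      exact hp'.not_dvd_one h6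
    · have h6 : (p : ℤ) ∣ 1 := by
        rw [← hsum2]
        exact dvd_add (Dvd.dvd.mul_right p1 _) (dvd_add (Dvd.dvd.mul_right p2 _) p4)
      exact hp'.not_dvd_one h6)
  have hs1 : i1 ∉ s := by rw [hs]; exact Finset.notMem_erase _ _
  obtain ⟨E, e1, e2, e3⟩ := exCol hf i1 (fun j => m * (t * y j)) s hs1
    (fun j _ => dvd_mul_right _ _)
  have hB : CongOne m (A * E) := hA.mul e2
  have hB1 : mt (A * E) 0 i1 = mt A 0 i1 + t * (m * c0) := by
    rw [mt_mul, e3, mul_colE_same, hc0]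
    congr 1
    rw [Finset.mul_sum, Finset.mul_sum]
    refine Finset.sum_congr rfl fun j _ => ?_
    ring
  have hB0 : mt (A * E) 0 0 = mt A 0 0 := by
    rw [mt_mul, e3, mul_colE_ne _ _ _ _ _ _ (Ne.symm h10)]
  rw [← hB1, ← hB0] at ht
  obtain ⟨u, v, huv⟩ := ht
  have hB2 : m ∣ 1 - mt (A * E) 0 0 - mt (A * E) 0 i2 := by
    have h1 := hB 0 0
    have h2 := hB 0 i2
    rw [Matrix.one_apply_eq] at h1
    rw [Matrix.one_apply_ne (Ne.symm h20), sub_zero] at h2
    have : 1 - mt (A * E) 0 0 - mt (A * E) 0 i2 =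
      -((mt (A * E) 0 0 - 1) + mt (A * E) 0 i2) := by ring
    rw [this, dvd_neg]; exact dvd_add h1 h2
  obtain ⟨k, hk⟩ := hB2
  have h2s : i2 ∉ ({0, i1} : Finset (Fin (n + 1))) := by
    rw [Finset.mem_insert, Finset.mem_singleton]
    rintro (h | h)
    · exact h20 h
    · exact h21 h
  obtain ⟨E', e1', e2', e3'⟩ := exCol hf i2 (fun j => if j = 0 then m * (k * u) else m * (k * v))
    {0, i1} h2s (by intro j _; split_ifs <;> exact dvd_mul_right _ _)
  have hBB : CongOne m (A * E * E') := hB.mul e2'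
  have hBB2 : mt (A * E * E') 0 i2 = 1 - mt (A * E) 0 0 := by
    rw [mt_mul, e3', mul_colE_same, Finset.sum_insert (by
      rw [Finset.mem_singleton]; exact Ne.symm h10), Finset.sum_singleton, if_pos rfl, if_neg h10]
    linear_combination (m * k) * huv - hk
  have hBB0 : mt (A * E * E') 0 0 = mt (A * E) 0 0 := by
    rw [mt_mul, e3', mul_colE_ne _ _ _ _ _ _ (Ne.symm h20)]
  obtain ⟨C, hC⟩ : ∃ C : SLn (n + 1), C = (el h20 1)⁻¹ * (A * E * E') * el h20 1 := ⟨_, rfl⟩
  have hCc : CongOne m C := by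
    have := hBB.conj (el h20 1)⁻¹
    rwa [inv_inv, ← hC] at this
  have hC0 : mt C 0 0 = 1 := by
    rw [hC, ← el_neg, mul_assoc, mt_mul, mt_el,
      Matrix.transvection_mul_apply_of_ne _ _ _ _ (Ne.symm h20), mt_mul, mt_el,
      Matrix.mul_transvection_apply_same, hBB2, hBB0]
    ring
  obtain ⟨A', hA', hfA⟩ := red_of_one f hf C hCc hC0
  refine ⟨A', hA', f (el h20 1), ?_⟩
  rw [← hfA, hC, map_mul, map_mul, map_mul, map_mul, e1, e1', map_inv]
  group

end Pool.Agent.CSP4
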